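import Mathlib

/-!
Constraint satisfaction with bounded arity as a clique problem.
-/

namespace Pool.Agent.P.MP_ba7db8_lc

open Finset

set_option maxHeartbeats 400000

/-- Digit `i` of `r` in base `d`. -/
def dig (d r i : ℕ) : ℕ := r / d ^ i % d

/-- Two local assignments agree on common variables. -/
def agree (d M : ℕ) (var : ℕ → ℕ → ℕ × ℕ) (s t : ℕ) : Prop :=
  ∀ i < M, ∀ i' < M, var (s / d ^ M) i = var (t / d ^ M) i' →
    dig d (s % d ^ M) i = dig d (t % d ^ M) i'

/-- A vertex is a satisfying local assignment. -/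
def goodV (k d M : ℕ) (var : ℕ → ℕ → ℕ × ℕ) (allowed : ℕ → (ℕ → ℕ) → Prop) (s : ℕ) : Prop :=
  s / d ^ M < k ∧ allowed (s / d ^ M) (dig d (s % d ^ M)) ∧ agree d M var s s

/-- The consistency graph of a constraint system. -/
def cspGraph (k d M : ℕ) (var : ℕ → ℕ → ℕ × ℕ) (allowed : ℕ → (ℕ → ℕ) → Prop) :
    SimpleGraph ℕ where
  Adj s t := s / d ^ M ≠ t / d ^ M ∧ goodV k d M var allowed s ∧ goodV k d M var allowed t ∧
    agree d M var s t
  symm := ⟨fun _ _ h => ⟨h.1.symm, h.2.2.1, h.2.1,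
    fun i hi i' hi' e => (h.2.2.2 i' hi' i hi e.symm).symm⟩⟩
  loopless := ⟨fun _ h => h.1 rfl⟩

theorem cspGraph_lt {k d M : ℕ} {var : ℕ → ℕ → ℕ × ℕ} {allowed : ℕ → (ℕ → ℕ) → Prop}
    (hd : 0 < d) {s t : ℕ} (h : (cspGraph k d M var allowed).Adj s t) : s < k * d ^ M :=
  (Nat.div_lt_iff_lt_mul (pow_pos hd M)).1 h.2.1.1

theorem exists_code {d : ℕ} (M : ℕ) (α : ℕ → ℕ) (hα : ∀ i, α i < d) :
    ∃ r < d ^ M, ∀ i < M, dig d r i = α i := by
  refine ⟨finFunctionFinEquiv (fun i : Fin M => (⟨α i, hα i⟩ : Fin d)), Fin.is_lt _,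
    fun i hi => ?_⟩
  have := finFunctionFinEquiv_symm_apply_val
    (finFunctionFinEquiv (fun i : Fin M => (⟨α i, hα i⟩ : Fin d))) ⟨i, hi⟩
  rw [Equiv.symm_apply_apply] at this
  exact this.symm

theorem clique_iff_assignment {k d M : ℕ} {var : ℕ → ℕ → ℕ × ℕ}
    {allowed : ℕ → (ℕ → ℕ) → Prop} (hd : 0 < d) (hk : 2 ≤ k)
    (hcongr : ∀ π α β, (∀ i < M, α i = β i) → allowed π α → allowed π β) :
    (∃ K, (cspGraph k d M var allowed).IsNClique k K) ↔
      ∃ A : ℕ × ℕ → ℕ, (∀ y, A y < d) ∧ ∀ π < k, allowed π fun i => A (var π i) := by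
  classical
  have hD : 0 < d ^ M := pow_pos hd M
  constructor
  · rintro ⟨K, hK⟩
    have hgood : ∀ s ∈ K, goodV k d M var allowed s := by
      intro s hs
      obtain ⟨t, ht, hne⟩ := Finset.exists_mem_ne (by rw [hK.card_eq]; omega) s
      exact (hK.isClique hs ht hne.symm).2.1
    have hagree : ∀ s ∈ K, ∀ t ∈ K, agree d M var s t := by
      intro s hs t ht
      by_cases h : s = t
      · subst h
        exact (hgood s hs).2.2
      · exact (hK.isClique hs ht h).2.2.2
    have hsurj : ∀ π < k, ∃ s ∈ K, s / d ^ M = π := by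
      have hinj : Set.InjOn (fun s => s / d ^ M) K := by
        intro s hs t ht h
        by_contra hne
        exact (hK.isClique hs ht hne).1 h
      have hsub : K.image (fun s => s / d ^ M) ⊆ range k := by
        intro π hπ
        obtain ⟨s, hs, rfl⟩ := mem_image.1 hπ
        exact mem_range.2 (hgood s hs).1
      have heq := Finset.eq_of_subset_of_card_le hsub
        (by rw [card_image_of_injOn hinj, hK.card_eq, card_range])
      intro π hπ
      have : π ∈ K.image (fun s => s / d ^ M) := heq ▸ mem_range.2 hπ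
      exact mem_image.1 this
    have hA : ∀ y : ℕ × ℕ, ∃ a < d, ∀ s ∈ K, ∀ i < M, var (s / d ^ M) i = y →
        dig d (s % d ^ M) i = a := by
      intro y
      by_cases h : ∃ s ∈ K, ∃ i < M, var (s / d ^ M) i = y
      · obtain ⟨s, hs, i, hi, e⟩ := h
        exact ⟨dig d (s % d ^ M) i, Nat.mod_lt _ hd,
          fun t ht i' hi' e' => hagree t ht s hs i' hi' i hi (e'.trans e.symm)⟩
      · exact ⟨0, hd, fun s hs i hi e => absurd ⟨s, hs, i, hi, e⟩ h⟩
    choose A hA1 hA2 using hA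
    refine ⟨A, hA1, fun π hπ => ?_⟩
    obtain ⟨s, hs, rfl⟩ := hsurj π hπ
    exact hcongr _ _ _ (fun i hi => hA2 _ s hs i hi rfl) (hgood s hs).2.1
  · rintro ⟨A, hA1, hA2⟩
    choose r hr1 hr2 using fun π => exists_code M (fun i => A (var π i)) fun i => hA1 _
    have e1 : ∀ π, (π * d ^ M + r π) / d ^ M = π := by
      intro π
      rw [mul_comm, Nat.mul_add_div hD, Nat.div_eq_of_lt (hr1 π), add_zero]
    have e2 : ∀ π, (π * d ^ M + r π) % d ^ M = r π := by
      intro π
      rw [Nat.mul_add_mod_of_lt (hr1 π)]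
    have hag : ∀ π π', agree d M var (π * d ^ M + r π) (π' * d ^ M + r π') := by
      intro π π' i hi i' hi' e
      rw [e1, e1] at e
      rw [e2, e2, hr2 π i hi, hr2 π' i' hi', e]
    have hgood : ∀ π < k, goodV k d M var allowed (π * d ^ M + r π) := by
      intro π hπ
      refine ⟨by rwa [e1], ?_, hag π π⟩
      rw [e1, e2]
      exact hcongr _ _ _ (fun i hi => (hr2 π i hi).symm) (hA2 π hπ)
    refine ⟨(range k).image fun π => π * d ^ M + r π, ?_, ?_⟩
    · intro s hs t ht hne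
      obtain ⟨π, hπ, rfl⟩ := mem_image.1 (Finset.mem_coe.1 hs)
      obtain ⟨π', hπ', rfl⟩ := mem_image.1 (Finset.mem_coe.1 ht)
      refine ⟨?_, hgood π (mem_range.1 hπ), hgood π' (mem_range.1 hπ'), hag π π'⟩
      rw [e1, e1]
      rintro rfl
      exact hne rfl
    · rw [card_image_of_injective, card_range]
      intro π π' h
      have := congrArg (· / d ^ M) h
      simpa only [e1] using this

end Pool.Agent.P.MP_ba7db8_lc
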