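import Mathlib

/-!
Cliques of the free Cayley graph of a graph.
-/

namespace Pool.Agent.P.MP_ba7db8_lc

set_option maxHeartbeats 400000
set_option linter.unusedSectionVars false

variable {F : Type*} [Ring F] [Nontrivial F]

/-- The vector `e_t - e_s`. -/
def dvec (F : Type*) [Ring F] (s t : ℕ) (w : ℕ) : F :=
  (if w = t then 1 else 0) - (if w = s then 1 else 0)

theorem dvec_ne_zero {s t w : ℕ} (hst : s ≠ t) : dvec F s t w ≠ 0 ↔ w = s ∨ w = t := by
  unfold dvec
  by_cases h1 : w = t <;> by_cases h2 : w = s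
  · exact absurd (h2.symm.trans h1) hst
  · simp [h1, h1 ▸ h2]
  · simp [h2, h2 ▸ h1]
  · simp [h1, h2]

theorem dvec_eq_zero {s t w : ℕ} (h1 : w ≠ s) (h2 : w ≠ t) : dvec F s t w = 0 := by
  simp [dvec, h1, h2]

theorem dvec_swap (s t w : ℕ) : dvec F t s w = - dvec F s t w := by
  simp [dvec]

theorem two_eq_zero_of_dvec {s t w : ℕ} (hst : s ≠ t) (hw : w = s ∨ w = t)
    (h : dvec F s t w = dvec F t s w) : (2 : F) = 0 := by
  rcases hw with rfl | rfl
  · simp only [dvec, hst, if_true, if_false] at h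
    have : (1 : F) + 1 = 0 := by
      have h' := congrArg (· + (1 : F)) h
      simpa using h'.symm
    rw [← this]
    norm_num
  · simp only [dvec, hst.symm, if_true, if_false] at h
    have : (1 : F) + 1 = 0 := by
      have h' := congrArg (· + (1 : F)) h
      simpa using h'
    rw [← this]
    norm_num

theorem dvec_compat {s t s' t' r q : ℕ} (hst : s ≠ t) (hst' : s' ≠ t') (hrq : r ≠ q)
    (h : ∀ w, dvec F s' t' w - dvec F s t w = dvec F r q w) :
    (s' = t ∧ t' = s ∧ (2 : F) ≠ 0) ∨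
      ∃ w y y', ((s = w ∧ t = y) ∨ (s = y ∧ t = w)) ∧ ((s' = w ∧ t' = y') ∨ (s' = y' ∧ t' = w)) ∧
        ((y = r ∧ y' = q) ∨ (y = q ∧ y' = r)) ∧ dvec F s t w = dvec F s' t' w := by
  have h1 : ∀ y, (y = s ∨ y = t) → y ≠ s' → y ≠ t' → (y = r ∨ y = q) := by
    intro y hy h1 h2
    rw [← dvec_ne_zero (F := F) hrq, ← h y, dvec_eq_zero h1 h2, zero_sub, neg_ne_zero]
    exact (dvec_ne_zero hst).2 hy
  have h2 : ∀ y, (y = s' ∨ y = t') → y ≠ s → y ≠ t → (y = r ∨ y = q) := by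
    intro y hy h1 h2
    rw [← dvec_ne_zero (F := F) hrq, ← h y, dvec_eq_zero h1 h2, sub_zero]
    exact (dvec_ne_zero hst').2 hy
  have h3 : ∀ w, w ≠ r → w ≠ q → dvec F s t w = dvec F s' t' w := by
    intro w h1 h2
    have := h w
    rw [dvec_eq_zero h1 h2, sub_eq_zero] at this
    exact this.symm
  have h4 : dvec F r q q ≠ 0 := (dvec_ne_zero hrq).2 (Or.inr rfl)
  by_cases a : s = s'
  · by_cases d : t = t'
    · subst a d
      exact absurd (by rw [← h q, sub_self]) h4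
    · have e1 := h1 t (Or.inr rfl) (by omega) d
      have e2 := h2 t' (Or.inr rfl) (by omega) (Ne.symm d)
      exact Or.inr ⟨s, t, t', by omega, by omega, by omega, h3 s (by omega) (by omega)⟩
  · by_cases b : s = t'
    · by_cases c : t = s'
      · refine Or.inl ⟨c.symm, b.symm, fun h22 => h4 ?_⟩
        subst b c
        rw [← h q, dvec_swap, ← neg_add', ← two_mul, h22, zero_mul, neg_zero]
      · have e1 := h1 t (Or.inr rfl) c (by omega)
        have e2 := h2 s' (Or.inl rfl) (Ne.symm a) (Ne.symm c)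
        exact Or.inr ⟨s, t, s', by omega, by omega, by omega, h3 s (by omega) (by omega)⟩
    · have e1 := h1 s (Or.inl rfl) a b
      by_cases c : t = s'
      · have e2 := h2 t' (Or.inr rfl) (Ne.symm b) (by omega)
        exact Or.inr ⟨t, s, t', by omega, by omega, by omega, h3 t (by omega) (by omega)⟩
      · have e2 := h2 s' (Or.inl rfl) (Ne.symm a) (Ne.symm c)
        by_cases d : t = t'
        · exact Or.inr ⟨t, s, s', by omega, by omega, by omega, h3 t (by omega) (by omega)⟩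
        · have e3 := h1 t (Or.inr rfl) c d
          omega

theorem share_one {a b c d w y x z z' : ℕ} (h1 : (a = x ∧ b = z) ∨ (a = z ∧ b = x))
    (h2 : (c = x ∧ d = z') ∨ (c = z' ∧ d = x)) (h3 : z ≠ z') (_h4 : a ≠ b) (_h5 : c ≠ d)
    (h6 : c = w ∨ d = w) (h7 : c = y ∨ d = y) (h8 : w ≠ y) :
    (a = w ∨ b = w ∨ a = y ∨ b = y) ∧ ¬ ((a = w ∨ b = w) ∧ (a = y ∨ b = y)) := by
  grind

theorem share_other {a b c d w y x z z' : ℕ} (h1 : (a = x ∧ b = z) ∨ (a = z ∧ b = x))
    (h2 : (c = x ∧ d = z') ∨ (c = z' ∧ d = x)) (h6 : (c = w ∧ d = y) ∨ (c = y ∧ d = w))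
    (h7 : ¬ (a = w ∨ b = w)) : a = y ∨ b = y := by
  grind

theorem same_centre {a b c d w y y' x z z' : ℕ} (h1 : (a = w ∧ b = y) ∨ (a = y ∧ b = w))
    (h2 : (c = w ∧ d = y') ∨ (c = y' ∧ d = w)) (h3 : y ≠ y')
    (h4 : (b = x ∧ a = z) ∨ (b = z ∧ a = x))
    (h5 : (c = x ∧ d = z') ∨ (c = z' ∧ d = x)) (h6 : z ≠ z') : x = w := by
  grind

theorem leaf_eq {a b c d w x z z' : ℕ} (h1 : (a = x ∧ b = z) ∨ (a = z ∧ b = x))
    (h2 : (c = x ∧ d = z') ∨ (c = z' ∧ d = x)) (h3 : z ≠ z') (_h4 : a ≠ b) (_h5 : c ≠ d)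
    (h6 : a = w ∨ b = w) (h7 : c = w ∨ d = w) :
    (if a = w then b else a) = z ∧ (if c = w then d else c) = z' := by
  grind

theorem exists_not_mem_three {ι : Type*} {I : Finset ι} (hI : 4 ≤ I.card) (a b c : ι) :
    ∃ d ∈ I, d ≠ a ∧ d ≠ b ∧ d ≠ c := by
  classical
  by_contra hcon
  push Not at hcon
  have : I ⊆ {a, b, c} := by
    intro d hd
    simp only [Finset.mem_insert, Finset.mem_singleton]
    by_contra h
    push Not at h
    exact h.2.2 (hcon d hd h.1 h.2.1)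
  have h1 := Finset.card_le_card this
  have h2 : ({a, b, c} : Finset ι).card ≤ 3 := Finset.card_le_three
  omega

theorem free_clique {ι : Type*} (Γ : SimpleGraph ℕ) (I : Finset ι) (hI : 4 ≤ I.card)
    (s t : ι → ℕ) (h1 : ∀ u ∈ I, Γ.Adj (s u) (t u))
    (h2 : ∀ u ∈ I, ∀ u' ∈ I, u ≠ u' → ∃ r q, Γ.Adj r q ∧
      ∀ w, dvec F (s u') (t u') w - dvec F (s u) (t u) w = dvec F r q w) :
    ∃ K : Finset ℕ, Γ.IsNClique (I.card + 1) K := by
  classical
  have hc : ∀ u ∈ I, ∀ u' ∈ I, u ≠ u' → (s u' = t u ∧ t u' = s u ∧ (2 : F) ≠ 0) ∨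
      ∃ w y y', ((s u = w ∧ t u = y) ∨ (s u = y ∧ t u = w)) ∧
        ((s u' = w ∧ t u' = y') ∨ (s u' = y' ∧ t u' = w)) ∧ Γ.Adj y y' ∧
        dvec F (s u) (t u) w = dvec F (s u') (t u') w := by
    intro u hu u' hu' hne
    obtain ⟨r, q, hrq, h⟩ := h2 u hu u' hu' hne
    rcases dvec_compat (h1 u hu).ne (h1 u' hu').ne hrq.ne h with h | ⟨w, y, y', a, b, c, d⟩
    · exact Or.inl h
    · refine Or.inr ⟨w, y, y', a, b, ?_, d⟩
      rcases c with ⟨rfl, rfl⟩ | ⟨rfl, rfl⟩
      · exact hrq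
      · exact hrq.symm
  have hB : ∀ u ∈ I, ∀ u' ∈ I, u ≠ u' →
      ∃ w y y', ((s u = w ∧ t u = y) ∨ (s u = y ∧ t u = w)) ∧
        ((s u' = w ∧ t u' = y') ∨ (s u' = y' ∧ t u' = w)) ∧ Γ.Adj y y' := by
    intro u hu u' hu' hne
    rcases hc u hu u' hu' hne with ⟨a1, a2, a3⟩ | ⟨w, y, y', a, b, c, -⟩
    · exfalso
      obtain ⟨v, hv, hvu, hvu', -⟩ := exists_not_mem_three hI u u' u
      have n1 := (h1 u hu).ne
      have n2 := (h1 v hv).ne
      rcases hc u hu v hv hvu.symm with ⟨b1, b2, -⟩ | ⟨w, y, y', b1, b2, b3, b4⟩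
      · rcases hc u' hu' v hv hvu'.symm with ⟨c1, c2, -⟩ | ⟨w, y, y', c1, c2, c3, -⟩
        · exact n1 (by rw [← a2, ← c1, b1])
        · have n3 := c3.ne
          rw [a1, a2] at c1
          rw [b1, b2] at c2
          clear * - c1 c2 n3 n1
          grind
      · have n3 := b3.ne
        rcases hc u' hu' v hv hvu'.symm with ⟨c1, c2, -⟩ | ⟨w', z, z', c1, c2, c3, c4⟩
        · rw [c1, c2, a1, a2] at b2
          clear * - b1 b2 n3 n1
          grind
        · have n4 := c3.ne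
          rw [a1, a2] at c1
          have hw : w' = w := same_centre b1 b2 n3 c1 c2 n4
          subst hw
          rw [a1, a2, ← b4] at c4
          refine a3 (two_eq_zero_of_dvec n1 ?_ c4.symm)
          clear * - b1
          grind
    · exact ⟨w, y, y', a, b, c⟩
  obtain ⟨u0, hu0, u1, hu1, h01⟩ := Finset.one_lt_card.1 (by omega : 1 < I.card)
  obtain ⟨w, y0, y1, a0, a1, a01⟩ := hB u0 hu0 u1 hu1 h01
  have n01 := a01.ne
  have hstar : ∀ u ∈ I, s u = w ∨ t u = w := by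
    intro u hu
    by_contra hcon
    have hu0' : u ≠ u0 := by
      rintro rfl
      clear * - hcon a0
      grind
    have hu1' : u ≠ u1 := by
      rintro rfl
      clear * - hcon a1
      grind
    obtain ⟨v, hv, hv0, hv1, hvu⟩ := exists_not_mem_three hI u0 u1 u
    obtain ⟨w1, z1, z1', b1, b2, b3⟩ := hB u hu u0 hu0 hu0'
    obtain ⟨w2, z2, z2', c1, c2, c3⟩ := hB u hu u1 hu1 hu1'
    have e1 : s u = y0 ∨ t u = y0 := share_other b1 b2 a0 hcon
    have e2 : s u = y1 ∨ t u = y1 := share_other c1 c2 a1 hcon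
    obtain ⟨w3, z3, z3', d1, d2, d3⟩ := hB v hv u0 hu0 hv0
    obtain ⟨w4, z4, z4', f1, f2, f3⟩ := hB v hv u1 hu1 hv1
    obtain ⟨w5, z5, z5', g1, g2, g3⟩ := hB v hv u hu hvu
    have n6 := (h1 v hv).ne
    have n7 := (h1 u0 hu0).ne
    have n8 := (h1 u1 hu1).ne
    have k1 := share_one (w := w) (y := y0) d1 d2 d3.ne n6 n7 (by clear * - a0; grind)
      (by clear * - a0; grind) (by clear * - a0 n7; grind)
    have k2 := share_one (w := w) (y := y1) f1 f2 f3.ne n6 n8 (by clear * - a1; grind)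
      (by clear * - a1; grind) (by clear * - a1 n8; grind)
    have k3 := share_one g1 g2 g3.ne n6 (h1 u hu).ne e1 e2 n01
    clear * - k1 k2 k3
    tauto
  let y : ι → ℕ := fun u => if s u = w then t u else s u
  have hy1 : ∀ u ∈ I, Γ.Adj w (y u) := by
    intro u hu
    have := h1 u hu
    by_cases h : s u = w
    · simp only [y, h, if_true]
      rwa [h] at this
    · simp only [y, h, if_false]
      have h' : t u = w := (hstar u hu).resolve_left h
      rw [h'] at this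
      exact this.symm
  have hy2 : ∀ u ∈ I, ∀ u' ∈ I, u ≠ u' → Γ.Adj (y u) (y u') := by
    intro u hu u' hu' hne
    obtain ⟨w', z, z', b1, b2, b3⟩ := hB u hu u' hu' hne
    obtain ⟨e1, e2⟩ := leaf_eq b1 b2 b3.ne (h1 u hu).ne (h1 u' hu').ne (hstar u hu) (hstar u' hu')
    simp only [y]
    rw [e1, e2]
    exact b3
  refine ⟨insert w (I.image y), ?_, ?_⟩
  · intro a ha b hb hab
    simp only [Finset.coe_insert, Finset.coe_image, Set.mem_insert_iff, Set.mem_image,
      Finset.mem_coe] at ha hb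
    rcases ha with rfl | ⟨u, hu, rfl⟩ <;> rcases hb with rfl | ⟨u', hu', rfl⟩
    · exact absurd rfl hab
    · exact hy1 u' hu'
    · exact (hy1 u hu).symm
    · exact hy2 u hu u' hu' fun h => hab (h ▸ rfl)
  · rw [Finset.card_insert_of_notMem, Finset.card_image_of_injOn]
    · intro u hu u' hu' h
      by_contra hne
      exact (hy2 u hu u' hu' hne).ne h
    · intro h
      obtain ⟨u, hu, h⟩ := Finset.mem_image.1 h
      exact (hy1 u hu).ne h.symm

end Pool.Agent.P.MP_ba7db8_lc
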