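import Mathlib
import Pool.Agent.P.MP_ba7db8_lc.FreeClique

/-!
Short vectors over `ZMod p`, any six of which are linearly independent.
-/

namespace Pool.Agent.P.MP_ba7db8_lc

open Polynomial Finset

set_option maxHeartbeats 400000

/-- Binary digit. -/
def bitN (s r : ℕ) : ℕ := s / 2 ^ r % 2

/-- Coefficient of `x ^ i` in the `j`-th power of the binary digit polynomial of `s`. -/
def cf (l s : ℕ) : ℕ → ℕ → ℕ
  | 0, i => if i = 0 then 1 else 0
  | j + 1, i => ∑ r ∈ range l, if r ≤ i then bitN s r * cf l s j (i - r) else 0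

/-- The vector attached to `s`. -/
def vec (l s i : ℕ) : ℕ := cf l s (i % 6) (i / 6)

/-- The length of the vectors. -/
def vlen (l : ℕ) : ℕ := 6 * (5 * l + 1)

/-- The binary digit polynomial. -/
noncomputable def upoly (p l s : ℕ) : (ZMod p)[X] :=
  ∑ r ∈ range l, C (bitN s r : ZMod p) * X ^ r

theorem coeff_upoly_pow (p l s : ℕ) : ∀ j i, (upoly p l s ^ j).coeff i = (cf l s j i : ZMod p)
  | 0, i => by
    simp only [pow_zero, cf, coeff_one]
    split_ifs <;> simp
  | j + 1, i => by
    rw [pow_succ]
    conv_lhs => rw [upoly, ← upoly]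
    have : upoly p l s ^ j * upoly p l s =
        ∑ r ∈ range l, C (bitN s r : ZMod p) * (upoly p l s ^ j * X ^ r) := by
      conv_lhs => arg 2; rw [upoly]
      rw [Finset.mul_sum]
      refine Finset.sum_congr rfl fun r _ => ?_
      ring
    rw [this, finsetSum_coeff]
    simp only [cf, Nat.cast_sum]
    refine Finset.sum_congr rfl fun r _ => ?_
    rw [coeff_C_mul, coeff_mul_X_pow']
    split_ifs
    · rw [coeff_upoly_pow p l s j]
      simp
    · simp

theorem natDegree_upoly_le (p l s : ℕ) : (upoly p l s).natDegree ≤ l := by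
  unfold upoly
  refine natDegree_sum_le_of_forall_le _ _ fun r hr => ?_
  exact (natDegree_C_mul_X_pow_le _ _).trans (mem_range.1 hr).le

theorem coeff_upoly (p l s r : ℕ) (hr : r < l) :
    (upoly p l s).coeff r = (bitN s r : ZMod p) := by
  unfold upoly
  rw [finsetSum_coeff, Finset.sum_eq_single r]
  · simp
  · intro b _ hb
    rw [coeff_C_mul, coeff_X_pow, if_neg (Ne.symm hb), mul_zero]
  · intro h
    exact absurd (mem_range.2 hr) h

theorem upoly_inj (p : ℕ) [Fact p.Prime] {l s t : ℕ} (hs : s < 2 ^ l) (ht : t < 2 ^ l)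
    (h : upoly p l s = upoly p l t) : s = t := by
  refine Nat.eq_of_testBit_eq fun r => ?_
  by_cases hr : r < l
  · have h1 := congrArg (fun P => P.coeff r) h
    simp only [coeff_upoly p l _ r hr, bitN] at h1
    rw [Nat.testBit_eq_decide_div_mod_eq, Nat.testBit_eq_decide_div_mod_eq]
    rcases Nat.mod_two_eq_zero_or_one (s / 2 ^ r) with a | a <;>
      rcases Nat.mod_two_eq_zero_or_one (t / 2 ^ r) with b | b <;> simp_all
  · have : 2 ^ l ≤ 2 ^ r := Nat.pow_le_pow_right (by norm_num) (not_lt.1 hr)
    rw [Nat.testBit_lt_two_pow (hs.trans_le this), Nat.testBit_lt_two_pow (ht.trans_le this)]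

theorem sum_dvec_mul (p : ℕ) {W : Finset ℕ} {a b : ℕ} (ha : a ∈ W) (hb : b ∈ W)
    (f : ℕ → (ZMod p)[X]) :
    ∑ w ∈ W, C (dvec (ZMod p) a b w) * f w = f b - f a := by
  simp only [dvec, map_sub, sub_mul, Finset.sum_sub_distrib]
  congr 1
  · rw [Finset.sum_eq_single b]
    · simp
    · intro w _ hw
      simp [hw]
    · intro h
      exact absurd hb h
  · rw [Finset.sum_eq_single a]
    · simp
    · intro w _ hw
      simp [hw]
    · intro h
      exact absurd ha h

theorem vec_indep (p : ℕ) [Fact p.Prime] {l s t s' t' r q : ℕ} (hs : s < 2 ^ l) (ht : t < 2 ^ l)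
    (hs' : s' < 2 ^ l) (ht' : t' < 2 ^ l) (hr : r < 2 ^ l) (hq : q < 2 ^ l)
    (h : ∀ i < vlen l, ((vec l t' i : ZMod p) - vec l s' i) - ((vec l t i : ZMod p) - vec l s i) =
      (vec l q i : ZMod p) - vec l r i) (w : ℕ) :
    dvec (ZMod p) s' t' w - dvec (ZMod p) s t w = dvec (ZMod p) r q w := by
  classical
  set W : Finset ℕ := {s, t, s', t', r, q} with hW
  have hcard : W.card ≤ 6 := Finset.card_le_six
  have hlt : ∀ w ∈ W, w < 2 ^ l := by
    intro w hw
    simp only [hW, mem_insert, mem_singleton] at hw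
    rcases hw with rfl | rfl | rfl | rfl | rfl | rfl <;> assumption
  let c : ℕ → ZMod p := fun w =>
    dvec (ZMod p) s' t' w - dvec (ZMod p) s t w - dvec (ZMod p) r q w
  have hsum : ∀ j < 6, ∑ w ∈ W, C (c w) * upoly p l w ^ j = 0 := by
    intro j hj
    simp only [c, map_sub, sub_mul, Finset.sum_sub_distrib]
    rw [sum_dvec_mul p (by simp [hW]) (by simp [hW]), sum_dvec_mul p (by simp [hW]) (by simp [hW]),
      sum_dvec_mul p (by simp [hW]) (by simp [hW])]
    ext i
    by_cases hi : i ≤ 5 * l
    · have h1 := h (6 * i + j) (by unfold vlen; omega)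
      have e1 : (6 * i + j) % 6 = j := by omega
      have e2 : (6 * i + j) / 6 = i := by omega
      simp only [vec, e1, e2] at h1
      simp only [coeff_sub, coeff_upoly_pow, coeff_zero, h1, sub_self]
    · have hz : ∀ w, (upoly p l w ^ j).coeff i = 0 := by
        intro w
        apply coeff_eq_zero_of_natDegree_lt
        calc (upoly p l w ^ j).natDegree ≤ j * (upoly p l w).natDegree := natDegree_pow_le
          _ ≤ 5 * l := Nat.mul_le_mul (by omega) (natDegree_upoly_le p l w)
          _ < i := by omega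
      simp [hz]
  let e := W.orderEmbOfFin rfl
  have hinj : Function.Injective fun k : Fin W.card => upoly p l (e k) := by
    intro a b hab
    exact e.injective (upoly_inj p (hlt _ (W.orderEmbOfFin_mem rfl a))
      (hlt _ (W.orderEmbOfFin_mem rfl b)) hab)
  have hv := Matrix.eq_zero_of_forall_pow_sum_mul_pow_eq_zero (v := fun k => C (c (e k))) hinj
    (fun i => by
      rw [← hsum i (lt_of_lt_of_le i.2 hcard)]
      have hbij : ∀ g : ℕ → (ZMod p)[X], ∑ k : Fin W.card, g (e k) = ∑ w ∈ W, g w := by
        intro g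
        refine Finset.sum_bij (fun k _ => e k) (fun k _ => W.orderEmbOfFin_mem rfl k)
          (fun a _ b _ hab => e.injective hab) (fun w hw => ?_) (fun _ _ => rfl)
        have : w ∈ Set.range e := by
          rw [Finset.range_orderEmbOfFin]
          exact hw
        obtain ⟨k, hk⟩ := this
        exact ⟨k, mem_univ _, hk⟩
      exact hbij fun w => C (c w) * upoly p l w ^ (i : ℕ))
  have hc : c w = 0 := by
    by_cases hw : w ∈ W
    · have : w ∈ Set.range e := by
        rw [Finset.range_orderEmbOfFin]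
        exact hw
      obtain ⟨k, rfl⟩ := this
      have := congrFun hv k
      simpa using this
    · simp only [hW, mem_insert, mem_singleton, not_or] at hw
      obtain ⟨a1, a2, a3, a4, a5, a6⟩ := hw
      simp [c, dvec, a1, a2, a3, a4, a5, a6]
  exact sub_eq_zero.1 hc

end Pool.Agent.P.MP_ba7db8_lc
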