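import Mathlib
import Pool.Agent.Lib.Helper47.PTMore
import Pool.Agent.P.MP_ba7db8_lc.Vander
import Pool.Agent.P.MP_ba7db8_lc.CSP

/-!
Polynomial-time predicates and some polynomial-time arithmetic functions.
-/

namespace Pool.Agent.P.MP_ba7db8_lc

open Pool.Agent.Lib.Helper47

set_option maxHeartbeats 400000

open Classical in
/-- Polynomial-time predicates. -/
def PTP {α : Type} [Enc α] (p : α → Prop) : Prop := PT fun a => decide (p a)

section

variable {α β : Type} [Enc α] [Enc β]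

theorem PTP.of_dec {p : α → Prop} [DecidablePred p] (h : PT fun a => decide (p a)) : PTP p :=
  h.of_eq fun _ => by congr

theorem PTP.dec {p : α → Prop} [DecidablePred p] (h : PTP p) : PT fun a => decide (p a) :=
  PT.of_eq h fun _ => by congr

theorem PTP.of_iff {p q : α → Prop} (h : PTP p) (hpq : ∀ a, p a ↔ q a) : PTP q :=
  (funext fun a => propext (hpq a) : p = q) ▸ h

theorem PTP.comp {p : β → Prop} {f : α → β} (h : PTP p) (hf : PT f) : PTP fun a => p (f a) :=
  PT.comp h hf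

theorem PTP.and {p q : α → Prop} (hp : PTP p) (hq : PTP q) : PTP fun a => p a ∧ q a := by
  classical
  exact PTP.of_dec (PT.decAnd hp.dec hq.dec)

theorem PTP.or {p q : α → Prop} (hp : PTP p) (hq : PTP q) : PTP fun a => p a ∨ q a := by
  classical
  exact PTP.of_dec (PT.decOr hp.dec hq.dec)

theorem PTP.not {p : α → Prop} (hp : PTP p) : PTP fun a => ¬ p a := by
  classical
  exact PTP.of_dec (PT.decNot hp.dec)

theorem PTP.imp {p q : α → Prop} (hp : PTP p) (hq : PTP q) : PTP fun a => p a → q a :=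
  (hp.not.or hq).of_iff fun _ => imp_iff_not_or.symm

theorem PTP.eq {f g : α → β} (hf : PT f) (hg : PT g) : PTP fun a => f a = g a := by
  classical
  exact PTP.of_dec (PT.decEq hf hg)

theorem PTP.le {f g : α → ℕ} (hf : PT f) (hg : PT g) : PTP fun a => f a ≤ g a :=
  PTP.of_dec (PT.decLe hf hg)

theorem PTP.lt {f g : α → ℕ} (hf : PT f) (hg : PT g) : PTP fun a => f a < g a :=
  PTP.of_dec (PT.decLt hf hg)

theorem PTP.ite {p : α → Prop} [DecidablePred p] {f g : α → β} (hp : PTP p) (hf : PT f)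
    (hg : PT g) : PT fun a => if p a then f a else g a :=
  PT.ite hp.dec hf hg

theorem PTP.bex {n : α → ℕ} {q : α → ℕ → Prop} (hn : PT n) (hb : PS n)
    (hq : PTP fun y : α × ℕ => q y.1 y.2) : PTP fun a => ∃ i < n a, q a i := by
  classical
  refine (PT.any (g := fun a i => decide (q a i)) hq.dec (PT.range hn hb)).of_eq fun a => ?_
  rw [Bool.eq_iff_iff]
  simp

theorem PTP.ball {n : α → ℕ} {q : α → ℕ → Prop} (hn : PT n) (hb : PS n)
    (hq : PTP fun y : α × ℕ => q y.1 y.2) : PTP fun a => ∀ i < n a, q a i := by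
  classical
  refine (PT.all (g := fun a i => decide (q a i)) hq.dec (PT.range hn hb)).of_eq fun a => ?_
  rw [Bool.eq_iff_iff]
  simp

theorem PTP.table (Q : ℕ → ℕ → ℕ → ℕ → Prop) (b : ℕ) {f₁ f₂ f₃ f₄ : α → ℕ} (h₁ : PT f₁)
    (h₂ : PT f₂) (h₃ : PT f₃) (h₄ : PT f₄)
    (hb : ∀ a, f₁ a < b ∧ f₂ a < b ∧ f₃ a < b ∧ f₄ a < b) :
    PTP fun a => Q (f₁ a) (f₂ a) (f₃ a) (f₄ a) := by
  classical
  have h : PT fun y : ℕ × ℕ × ℕ × ℕ => decide ((y.1 < b ∧ y.2.1 < b ∧ y.2.2.1 < b ∧ y.2.2.2 < b) ∧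
      Q y.1 y.2.1 y.2.2.1 y.2.2.2) := by
    refine PT.of_table _ (Finset.range b ×ˢ Finset.range b ×ˢ Finset.range b ×ˢ
      Finset.range b).toList false fun y hy => ?_
    simp only [Finset.mem_toList, Finset.mem_product, Finset.mem_range] at hy
    simp [hy]
  refine ((PTP.of_dec h).comp (f := fun a => (f₁ a, f₂ a, f₃ a, f₄ a))
    (by fun_prop)).of_iff fun a => ?_
  simp [hb a]

theorem ps_fst {g : α → ℕ} (h : PS g) : PS fun y : α × β => g y.1 := by
  obtain ⟨p, hp⟩ := h
  refine ⟨p, fun y => (hp y.1).trans (eval_mono p ?_)⟩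
  rw [size_prod]
  omega

theorem ps_length {l : α → List β} (h : PT l) : PS fun a => (l a).length :=
  h.size_le.mono fun a => (length_lt_size (l a)).le

theorem pt_eval (P : Polynomial ℕ) {f : α → ℕ} (hf : PT f) : PT fun a => P.eval (f a) := by
  induction P using Polynomial.induction_on' with
  | add p q hp hq => exact (PT.add hp hq).of_eq fun a => by simp
  | monomial k c =>
    exact (PT.mul (PT.const c) (PT.pow hf (PT.const k) (PB.const k))).of_eq fun a => by simp

theorem pt_size {f : α → ℕ} (hf : PT f) : PT fun a => (f a).size :=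
  (PT.length (PT.bits hf)).of_eq fun _ => Nat.size_eq_bits_len _

theorem ps_size {f : α → ℕ} (hf : PS f) : PS fun a => (f a).size :=
  hf.mono fun _ => Nat.size_le.2 Nat.lt_two_pow_self

theorem pow_size_le (g Q : ℕ) : g ^ Q.size ≤ (2 * Q + 1) ^ g := by
  have h1 : 2 ^ Q.size ≤ 2 * Q + 1 := by
    rcases Nat.eq_zero_or_pos Q with rfl | h
    · simp
    · have h2 : 0 < Q.size := Nat.size_pos.2 h
      have h3 : 2 ^ (Q.size - 1) ≤ Q := Nat.lt_size.1 (by omega)
      have h4 : 2 ^ Q.size = 2 * 2 ^ (Q.size - 1) := by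
        rw [← pow_succ']
        congr 1
        omega
      omega
  calc g ^ Q.size ≤ (2 ^ g) ^ Q.size := Nat.pow_le_pow_left Nat.lt_two_pow_self.le _
    _ = (2 ^ Q.size) ^ g := by rw [← pow_mul, ← pow_mul, mul_comm]
    _ ≤ (2 * Q + 1) ^ g := Nat.pow_le_pow_left h1 _

theorem ps_pow_size (g : ℕ) {f : α → ℕ} (hf : PS f) : PS fun a => g ^ (f a).size :=
  ((((PB.const 2).mul hf).add (PB.const 1)).pow g).mono fun _ => pow_size_le _ _

theorem pt_dig (d : ℕ) {r i cap : α → ℕ} (hr : PT r) (hi : PT i) (hc : PT cap) (hb : PS cap) :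
    PT fun a => dig d (r a) (min (i a) (cap a)) :=
  PT.mod (PT.div hr (PT.pow (PT.const d) (PT.min hi hc) (hb.mono fun _ => min_le_right _ _)))
    (PT.const d)

theorem pt_bitN {s r : α → ℕ} (hs : PT s) (hr : PT r) : PT fun a => bitN (s a) (r a) :=
  (PT.toNatBool (PT.testBit hs hr)).of_eq fun a => by
    rw [Nat.testBit_eq_decide_div_mod_eq, bitN]
    rcases Nat.mod_two_eq_zero_or_one (s a / 2 ^ r a) with h | h <;> simp [h]

end

theorem pt_cf (j : ℕ) : ∀ {α : Type} [Enc α] {l s i : α → ℕ}, PT l → PS l → PT s → PT i →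
    PT fun a => cf (l a) (s a) j (i a) := by
  induction j with
  | zero =>
    intro α _ l s i _ _ _ hi
    exact PTP.ite (PTP.eq hi (PT.const 0)) (PT.const 1) (PT.const 0)
  | succ j ih =>
    intro α _ l s i hl hb hs hi
    have h1 : PT fun y : α × ℕ => if y.2 ≤ i y.1 then
        bitN (s y.1) y.2 * cf (l y.1) (s y.1) j (i y.1 - y.2) else 0 :=
      PTP.ite (PTP.le (by fun_prop) (by fun_prop))
        (PT.mul (pt_bitN (by fun_prop) (by fun_prop))
          (ih (by fun_prop) (ps_fst hb) (by fun_prop) (by fun_prop))) (PT.const 0)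
    exact (PT.sum (PT.map (g := fun a r => if r ≤ i a then
      bitN (s a) r * cf (l a) (s a) j (i a - r) else 0) h1 (PT.range hl hb))).of_eq fun a => rfl

theorem pt_vec {α : Type} [Enc α] {l s i : α → ℕ} (hl : PT l) (hb : PS l) (hs : PT s)
    (hi : PT i) : PT fun a => vec (l a) (s a) (i a) := by
  have h6 : PT fun a => i a % 6 := by fun_prop
  have h7 : PT fun a => i a / 6 := by fun_prop
  have h := PTP.ite (PTP.eq h6 (PT.const 0)) (pt_cf 0 hl hb hs h7)
    (PTP.ite (PTP.eq h6 (PT.const 1)) (pt_cf 1 hl hb hs h7)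
    (PTP.ite (PTP.eq h6 (PT.const 2)) (pt_cf 2 hl hb hs h7)
    (PTP.ite (PTP.eq h6 (PT.const 3)) (pt_cf 3 hl hb hs h7)
    (PTP.ite (PTP.eq h6 (PT.const 4)) (pt_cf 4 hl hb hs h7) (pt_cf 5 hl hb hs h7)))))
  refine h.of_eq fun a => ?_
  unfold vec
  have : i a % 6 < 6 := Nat.mod_lt _ (by norm_num)
  generalize i a % 6 = r at this
  interval_cases r <;> simp

end Pool.Agent.P.MP_ba7db8_lc
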