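import Mathlib

/-!
The computation tableau of a stack Turing machine as a system of local constraints.
-/

namespace Pool.Agent.P.MP_ba7db8_lc

open Turing Turing.TM2

set_option maxHeartbeats 400000

section Local

variable {K : Type} [DecidableEq K] {Γ : K → Type} {Λ σ : Type}

/-- Number of nested stack operations of a statement. -/
def depth : Stmt Γ Λ σ → ℕ
  | Stmt.push _ _ q => depth q + 1
  | Stmt.peek _ _ q => depth q + 1
  | Stmt.pop _ _ q => depth q + 1
  | Stmt.load _ q => depth q
  | Stmt.branch _ q₁ q₂ => max (depth q₁) (depth q₂)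
  | Stmt.goto _ => 0
  | Stmt.halt => 0

theorem stepAux_append (q : Stmt Γ Λ σ) (v : σ) (T R : ∀ k, List (Γ k))
    (h : ∀ k, R k = [] ∨ depth q ≤ (T k).length) :
    stepAux q v (fun k => T k ++ R k) =
      ⟨(stepAux q v T).l, (stepAux q v T).var, fun k => (stepAux q v T).stk k ++ R k⟩ := by
  induction q generalizing v T with
  | push k f q ih =>
    simp only [stepAux]
    rw [← ih]
    · congr 1
      funext k'
      by_cases hk : k' = k
      · subst hk
        simp
      · simp [Function.update_of_ne hk]
    · intro k'
      rcases h k' with h | h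
      · exact Or.inl h
      · right
        simp only [depth] at h
        by_cases hk : k' = k
        · subst hk
          simp
          omega
        · rw [Function.update_of_ne hk]
          omega
  | peek k f q ih =>
    simp only [stepAux]
    have e : (T k ++ R k).head? = (T k).head? := by
      rcases h k with h | h
      · simp [h]
      · cases hT : T k with
        | nil => simp [hT, depth] at h
        | cons a l => simp
    rw [e, ← ih]
    intro k'
    rcases h k' with h | h
    · exact Or.inl h
    · right
      simp only [depth] at h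
      omega
  | pop k f q ih =>
    simp only [stepAux]
    have e : (T k ++ R k).head? = (T k).head? ∧ (T k ++ R k).tail = (T k).tail ++ R k := by
      rcases h k with h | h
      · simp [h]
      · cases hT : T k with
        | nil => simp [hT, depth] at h
        | cons a l => simp
    rw [e.1, e.2, ← ih]
    · congr 1
      funext k'
      by_cases hk : k' = k
      · subst hk
        simp
      · simp [Function.update_of_ne hk]
    · intro k'
      rcases h k' with h | h
      · exact Or.inl h
      · right
        simp only [depth] at h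
        by_cases hk : k' = k
        · subst hk
          simp
          omega
        · rw [Function.update_of_ne hk]
          omega
  | load a q ih =>
    simp only [stepAux]
    exact ih _ _ h
  | branch f q₁ q₂ ih₁ ih₂ =>
    simp only [stepAux]
    cases f v
    · refine ih₂ _ _ fun k => (h k).imp id fun h => ?_
      simp only [depth] at h
      omega
    · refine ih₁ _ _ fun k => (h k).imp id fun h => ?_
      simp only [depth] at h
      omega
  | goto f => rfl
  | halt => rfl

theorem length_stepAux (q : Stmt Γ Λ σ) (v : σ) (T : ∀ k, List (Γ k)) (k : K) :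
    ((stepAux q v T).stk k).length ≤ (T k).length + depth q := by
  induction q generalizing v T with
  | push k' f q ih =>
    simp only [stepAux, depth]
    refine (ih _ _).trans ?_
    by_cases hk : k = k'
    · subst hk
      simp
      omega
    · rw [Function.update_of_ne hk]
      omega
  | peek k' f q ih =>
    simp only [stepAux, depth]
    exact (ih _ _).trans (by omega)
  | pop k' f q ih =>
    simp only [stepAux, depth]
    refine (ih _ _).trans ?_
    by_cases hk : k = k'
    · subst hk
      simp
      omega
    · rw [Function.update_of_ne hk]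
      omega
  | load a q ih => exact ih _ _
  | branch f q₁ q₂ ih₁ ih₂ =>
    simp only [stepAux, depth]
    cases f v
    · exact (ih₂ _ _).trans (by omega)
    · exact (ih₁ _ _).trans (by omega)
  | goto f => simp [stepAux]
  | halt => simp [stepAux]

/-- One column of a configuration. -/
abbrev Col (Γ : K → Type) (Λ σ : Type) : Type := Option Λ × σ × ∀ k, Option (Γ k)

/-- Column `j` of a configuration. -/
def colOf (cfg : Cfg Γ Λ σ) (j : ℕ) : Col Γ Λ σ := (cfg.l, cfg.var, fun k => (cfg.stk k)[j]?)

/-- The total step function. -/
def run (M : Λ → Stmt Γ Λ σ) (cfg : Cfg Γ Λ σ) : Cfg Γ Λ σ := (step M cfg).getD cfg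

/-- The tops of the stacks read off the first `c` columns. -/
def topOf (c : ℕ) (β : ℕ → Col Γ Λ σ) (k : K) : List (Γ k) :=
  (List.range c).filterMap fun i => (β i).2.2 k

/-- The local update rule. -/
def delta (M : Λ → Stmt Γ Λ σ) (c : ℕ) (β : ℕ → Col Γ Λ σ) (jj : ℕ) : Col Γ Λ σ :=
  match (β 0).1 with
  | none => β (2 * c)
  | some l =>
    ((stepAux (M l) (β 0).2.1 (topOf c β)).l, (stepAux (M l) (β 0).2.1 (topOf c β)).var,
      fun k => if jj < ((stepAux (M l) (β 0).2.1 (topOf c β)).stk k).length then
        ((stepAux (M l) (β 0).2.1 (topOf c β)).stk k)[jj]?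
      else (β (3 * c - ((stepAux (M l) (β 0).2.1 (topOf c β)).stk k).length)).2.2 k)

/-- The columns read by the update rule at column `j`. -/
def idx (c j i : ℕ) : ℕ := if i < c then i else j + (i - c) - c

theorem filterMap_range_getElem? {α : Type*} (l : List α) (c : ℕ) :
    (List.range c).filterMap (fun i => l[i]?) = l.take c := by
  induction c with
  | zero => simp
  | succ c ih =>
    rw [List.range_succ, List.filterMap_append, ih, List.take_add_one]
    cases h : l[c]? <;> simp [h]

theorem delta_congr (M : Λ → Stmt Γ Λ σ) {c : ℕ} {β β' : ℕ → Col Γ Λ σ}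
    (h : ∀ i ≤ 3 * c, β i = β' i) (jj : ℕ) : delta M c β jj = delta M c β' jj := by
  have ht : topOf c β = topOf c β' := by
    funext k
    unfold topOf
    refine List.filterMap_congr fun i hi => ?_
    rw [h i (by have := List.mem_range.1 hi; omega)]
  unfold delta
  rw [h 0 (Nat.zero_le _), ht, h (2 * c) (by omega)]
  split
  · rfl
  · refine Prod.ext rfl (Prod.ext rfl ?_)
    funext k
    simp only
    rw [h _ (Nat.sub_le _ _)]

theorem colOf_run (M : Λ → Stmt Γ Λ σ) {c : ℕ} (hc : ∀ l, depth (M l) ≤ c) (hc0 : 0 < c)
    (cfg : Cfg Γ Λ σ) (j : ℕ) :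
    colOf (run M cfg) j = delta M c (fun i => colOf cfg (idx c j i)) (min j (2 * c)) := by
  obtain ⟨l, v, S⟩ := cfg
  have ht : topOf c (fun i => colOf (⟨l, v, S⟩ : Cfg Γ Λ σ) (idx c j i)) =
      fun k => (S k).take c := by
    funext k
    unfold topOf
    rw [← filterMap_range_getElem?]
    refine List.filterMap_congr fun i hi => ?_
    simp [colOf, idx, List.mem_range.1 hi]
  cases l with
  | none =>
    have e : idx c j (2 * c) = j := by
      unfold idx
      split_ifs <;> omega
    simp only [delta, run, step, colOf, Option.getD_none, e]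
  | some l =>
    have e := stepAux_append (M l) v (fun k => (S k).take c) (fun k => (S k).drop c) (by
      intro k
      by_cases h : (S k).length ≤ c
      · exact Or.inl (List.drop_eq_nil_of_le h)
      · right
        rw [List.length_take]
        exact (hc l).trans (by omega))
    simp only [List.take_append_drop] at e
    unfold delta
    rw [ht]
    simp only [run, step, colOf, Option.getD_some]
    rw [e]
    refine Prod.ext rfl (Prod.ext rfl ?_)
    funext k
    simp only
    have hl := length_stepAux (M l) v (fun k => (S k).take c) k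
    have hl2 : ((S k).take c).length ≤ c := List.length_take_le _ _
    have hl3 := hc l
    set W := (stepAux (M l) v fun k => (S k).take c).stk k with hW
    by_cases hj : j < W.length
    · have e1 : min j (2 * c) = j := by omega
      rw [e1, if_pos hj, List.getElem?_append_left hj]
    · rw [if_neg (by omega), List.getElem?_append_right (by omega), List.getElem?_drop]
      congr 1
      unfold idx
      split_ifs <;> omega

/-- Symbols that a statement can push. -/
def pushSet : Stmt Γ Λ σ → Set (Σ k, Γ k)
  | Stmt.push k f q => Set.range (fun v => (⟨k, f v⟩ : Σ k, Γ k)) ∪ pushSet q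
  | Stmt.peek _ _ q => pushSet q
  | Stmt.pop _ _ q => pushSet q
  | Stmt.load _ q => pushSet q
  | Stmt.branch _ q₁ q₂ => pushSet q₁ ∪ pushSet q₂
  | Stmt.goto _ => ∅
  | Stmt.halt => ∅

omit [DecidableEq K] in
theorem pushSet_finite [Finite σ] (q : Stmt Γ Λ σ) : (pushSet q).Finite := by
  induction q with
  | push k f q ih => exact (Set.finite_range _).union ih
  | peek k f q ih => exact ih
  | pop k f q ih => exact ih
  | load a q ih => exact ih
  | branch f q₁ q₂ ih₁ ih₂ => exact ih₁.union ih₂
  | goto f => exact Set.finite_empty
  | halt => exact Set.finite_empty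

theorem stepAux_mem {A : Set (Σ k, Γ k)} (q : Stmt Γ Λ σ) (hq : pushSet q ⊆ A) (v : σ)
    (T : ∀ k, List (Γ k)) (hT : ∀ k, ∀ a ∈ T k, (⟨k, a⟩ : Σ k, Γ k) ∈ A) :
    ∀ k, ∀ a ∈ (stepAux q v T).stk k, (⟨k, a⟩ : Σ k, Γ k) ∈ A := by
  induction q generalizing v T with
  | push k' f q ih =>
    simp only [stepAux]
    refine ih (Set.union_subset_iff.1 hq).2 _ _ fun k a ha => ?_
    by_cases hk : k = k'
    · subst hk
      simp only [Function.update_self, List.mem_cons] at ha
      rcases ha with rfl | ha
      · exact hq (Or.inl ⟨v, rfl⟩)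
      · exact hT _ _ ha
    · rw [Function.update_of_ne hk] at ha
      exact hT _ _ ha
  | peek k' f q ih => exact ih hq _ _ hT
  | pop k' f q ih =>
    simp only [stepAux]
    refine ih hq _ _ fun k a ha => ?_
    by_cases hk : k = k'
    · subst hk
      simp only [Function.update_self] at ha
      exact hT _ _ (List.mem_of_mem_tail ha)
    · rw [Function.update_of_ne hk] at ha
      exact hT _ _ ha
  | load a q ih => exact ih hq _ _ hT
  | branch f q₁ q₂ ih₁ ih₂ =>
    simp only [stepAux]
    cases f v
    · exact ih₂ (Set.union_subset_iff.1 hq).2 _ _ hT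
    · exact ih₁ (Set.union_subset_iff.1 hq).1 _ _ hT
  | goto f => exact hT
  | halt => exact hT

theorem run_mem {A : Set (Σ k, Γ k)} (M : Λ → Stmt Γ Λ σ) (hM : ∀ l, pushSet (M l) ⊆ A)
    (cfg : Cfg Γ Λ σ) (hT : ∀ k, ∀ a ∈ cfg.stk k, (⟨k, a⟩ : Σ k, Γ k) ∈ A) (n : ℕ) :
    ∀ k, ∀ a ∈ ((run M)^[n] cfg).stk k, (⟨k, a⟩ : Σ k, Γ k) ∈ A := by
  induction n with
  | zero => exact hT
  | succ n ih =>
    rw [Function.iterate_succ_apply']
    generalize (run M)^[n] cfg = cfg' at ih
    obtain ⟨l, v, S⟩ := cfg'
    cases l with
    | none => exact ih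
    | some l => exact stepAux_mem (M l) (hM l) v S ih

theorem iterate_run_of_evals (M : Λ → Stmt Γ Λ σ) :
    ∀ (n : ℕ) (a b : Cfg Γ Λ σ), (flip bind (step M))^[n] (some a) = some b →
      (run M)^[n] a = b := by
  intro n
  induction n with
  | zero => intro a b h; simpa using h
  | succ n ih =>
    intro a b h
    rw [Function.iterate_succ_apply] at h ⊢
    cases hs : step M a with
    | none =>
      have e : flip bind (step M) (some a) = none := hs
      rw [e] at h
      have : ∀ n, (flip bind (step M))^[n] (none : Option (Cfg Γ Λ σ)) = none := by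
        intro n
        induction n with
        | zero => rfl
        | succ n ih => rw [Function.iterate_succ_apply]; exact ih
      rw [this] at h
      cases h
    | some a' =>
      have e : flip bind (step M) (some a) = some a' := hs
      rw [e] at h
      have e2 : run M a = a' := by simp [run, hs]
      rw [e2]
      exact ih a' b h

theorem iterate_run_of_halt (M : Λ → Stmt Γ Λ σ) {b : Cfg Γ Λ σ} (hb : b.l = none) (n : ℕ) :
    (run M)^[n] b = b := by
  refine Function.iterate_fixed ?_ n
  obtain ⟨l, v, S⟩ := b
  simp only at hb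
  subst hb
  rfl

omit [DecidableEq K] in
/-- There are finitely many columns over a finite set of symbols, so they can be numbered. -/
theorem exists_dec [Finite K] [Finite Λ] [Finite σ] [Nonempty σ] {A : Set (Σ k, Γ k)}
    (hA : A.Finite) : ∃ (d : ℕ) (dec : ℕ → Col Γ Λ σ), 0 < d ∧
      ∀ x : Col Γ Λ σ, (∀ k a, x.2.2 k = some a → (⟨k, a⟩ : Σ k, Γ k) ∈ A) →
        ∃ a < d, dec a = x := by
  have h1 : ∀ k, {o : Option (Γ k) | ∀ a, o = some a → (⟨k, a⟩ : Σ k, Γ k) ∈ A}.Finite := by
    intro k
    have h2 : {a : Γ k | (⟨k, a⟩ : Σ k, Γ k) ∈ A}.Finite :=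
      hA.preimage (sigma_mk_injective (i := k)).injOn
    refine ((h2.image some).insert none).subset ?_
    rintro (_ | a) ha
    · exact Set.mem_insert _ _
    · exact Set.mem_insert_of_mem _ ⟨a, ha a rfl, rfl⟩
  have h3 : {x : Col Γ Λ σ | ∀ k a, x.2.2 k = some a → (⟨k, a⟩ : Σ k, Γ k) ∈ A}.Finite := by
    refine (Set.finite_univ.prod (Set.finite_univ.prod (Set.Finite.pi' h1))).subset ?_
    intro x hx
    exact ⟨trivial, trivial, hx⟩
  obtain ⟨n, f, -, hf⟩ := h3.fin_param
  refine ⟨n + 1, fun a => if h : a < n then f ⟨a, h⟩ else
    (none, Classical.arbitrary σ, fun _ => none), Nat.succ_pos n, fun x hx => ?_⟩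
  have : x ∈ Set.range f := hf ▸ hx
  obtain ⟨i, rfl⟩ := this
  exact ⟨i, by omega, by simp⟩

end Local

end Pool.Agent.P.MP_ba7db8_lc
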