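import Mathlib
import Pool.Agent.P.MP_ba7db8_lc.Tableau

/-!
The constraint system of the tableau is satisfiable iff some witness is accepted.
-/

namespace Pool.Agent.P.MP_ba7db8_lc

open Turing Turing.TM2

set_option maxHeartbeats 400000

/-- Variables of the constraint at position `π`. -/
def tvar (J c π i : ℕ) : ℕ × ℕ :=
  if i ≤ 3 * c then (π / J, idx c (π % J) i) else (π / J + 1, π % J)

/-- Type of the initial constraint at row `t`, column `j`. -/
def tag (pre : List Bool) (pw t j : ℕ) : ℕ :=
  if t ≠ 0 then 0 else if j < pre.length then (if pre.getD j false = true then 2 else 1)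
  else if j < pre.length + pw then 3 else 4

/-- Flag of the acceptance constraint. -/
def finFlag (T t j : ℕ) : ℕ := if t = T ∧ j = 0 then 1 else 0

variable (tm : FinTM2)

/-- The initial constraint. -/
def initC (ι : Bool → tm.Γ tm.k₀) (c tg : ℕ) (β : ℕ → Col tm.Γ tm.Λ tm.σ) : Prop :=
  tg = 0 ∨ ((β (2 * c)).1 = some tm.main ∧ (β (2 * c)).2.1 = tm.initialState ∧
    (∀ k, k ≠ tm.k₀ → (β (2 * c)).2.2 k = none) ∧
    (tg = 1 → (β (2 * c)).2.2 tm.k₀ = some (ι false)) ∧
    (tg = 2 → (β (2 * c)).2.2 tm.k₀ = some (ι true)) ∧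
    (tg = 3 → (β (2 * c)).2.2 tm.k₀ = none → (β (2 * c + 1)).2.2 tm.k₀ = none) ∧
    (tg = 4 → (β (2 * c)).2.2 tm.k₀ = none))

/-- The local constraint. -/
def allowedCol (ι : Bool → tm.Γ tm.k₀) (o : tm.Γ tm.k₁) (c jj tg fn : ℕ)
    (β : ℕ → Col tm.Γ tm.Λ tm.σ) : Prop :=
  β (3 * c + 1) = delta tm.m c β jj ∧ initC tm ι c tg β ∧
    (fn = 1 → (β (2 * c)).2.2 tm.k₁ = some o)

theorem allowedCol_congr {ι : Bool → tm.Γ tm.k₀} {o : tm.Γ tm.k₁} {c jj tg fn : ℕ}
    {β β' : ℕ → Col tm.Γ tm.Λ tm.σ} (h : ∀ i < 3 * c + 2, β i = β' i) (hc : 0 < c)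
    (hβ : allowedCol tm ι o c jj tg fn β) : allowedCol tm ι o c jj tg fn β' := by
  unfold allowedCol initC at hβ ⊢
  rw [← h (3 * c + 1) (by omega), ← h (2 * c) (by omega), ← h (2 * c + 1) (by omega),
    ← delta_congr tm.m (β := β) (fun i hi => h i (by omega))]
  exact hβ

theorem initList_stk_self (s : List (tm.Γ tm.k₀)) : (initList tm s).stk tm.k₀ = s := by
  simp [initList]

theorem initList_stk_ne (s : List (tm.Γ tm.k₀)) {k : tm.K} (h : k ≠ tm.k₀) :
    (initList tm s).stk k = [] := by
  simp [initList, h]

theorem haltList_stk_self (s : List (tm.Γ tm.k₁)) : (haltList tm s).stk tm.k₁ = s := by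
  simp [haltList]

theorem idx_centre (c j : ℕ) : idx c j (2 * c) = j := by
  unfold idx
  split_ifs <;> omega

theorem idx_next {c : ℕ} (j : ℕ) : idx c j (2 * c + 1) = j + 1 := by
  unfold idx
  split_ifs <;> omega

theorem exists_list_of_prefix {α : Type*} (f : ℕ → Option α) (n : ℕ)
    (h1 : ∀ i, i < n → f i = none → f (i + 1) = none) (h2 : ∀ i, n ≤ i → f i = none) :
    ∃ w : List α, w.length ≤ n ∧ ∀ i, w[i]? = f i := by
  induction n generalizing f with
  | zero => exact ⟨[], le_rfl, fun i => by simp [h2 i (Nat.zero_le _)]⟩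
  | succ n ih =>
    obtain ⟨w, hw1, hw2⟩ := ih (fun i => f (i + 1)) (fun i hi => h1 (i + 1) (by omega))
      (fun i hi => h2 (i + 1) (by omega))
    cases h0 : f 0 with
    | none =>
      refine ⟨[], Nat.zero_le _, fun i => ?_⟩
      have : ∀ i, f i = none := by
        intro i
        induction i with
        | zero => exact h0
        | succ i ih =>
          by_cases hi : i < n + 1
          · exact h1 i hi ih
          · exact h2 _ (by omega)
      simp [this]
    | some a =>
      refine ⟨a :: w, by simpa using hw1, fun i => ?_⟩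
      cases i with
      | zero => simp [h0]
      | succ i => simpa using hw2 i

theorem tableau_sound (ι : Bool ≃ tm.Γ tm.k₀) (o : tm.Γ tm.k₁) {c : ℕ}
    (hc : ∀ l, depth (tm.m l) ≤ c) (hc0 : 0 < c) (pre : List Bool) {pw T J k : ℕ}
    (hJ1 : pre.length + pw < J) (hJ2 : (T + 1) * c < J) (hk : (T + 1) * J ≤ k)
    (B : ℕ × ℕ → Col tm.Γ tm.Λ tm.σ)
    (hB : ∀ π < k, allowedCol tm ι o c (min (π % J) (2 * c)) (tag pre pw (π / J) (π % J))
      (finFlag T (π / J) (π % J)) fun i => B (tvar J c π i)) :
    ∃ w : List Bool, w.length ≤ pw ∧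
      (((run tm.m)^[T] (initList tm ((pre ++ w).map ι))).stk tm.k₁)[0]? = some o := by
  have hJ0 : 0 < J := by omega
  have hpos : ∀ t ≤ T, ∀ j < J, allowedCol tm ι o c (min j (2 * c)) (tag pre pw t j)
      (finFlag T t j) fun i => if i ≤ 3 * c then B (t, idx c j i) else B (t + 1, j) := by
    intro t ht j hj
    have h := hB (J * t + j) (by nlinarith)
    have e1 : (J * t + j) / J = t := by
      rw [Nat.mul_add_div hJ0, Nat.div_eq_of_lt hj, add_zero]
    have e2 : (J * t + j) % J = j := by
      rw [Nat.mul_add_mod, Nat.mod_eq_of_lt hj]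
    simp only [tvar, e1, e2] at h
    convert h using 2 with i
    split_ifs <;> rfl
  have h2c : 2 * c ≤ 3 * c := by omega
  have h2c1 : 2 * c + 1 ≤ 3 * c := by omega
  have hinit : ∀ j < J, (B (0, j)).1 = some tm.main ∧ (B (0, j)).2.1 = tm.initialState ∧
      (∀ k, k ≠ tm.k₀ → (B (0, j)).2.2 k = none) ∧
      (tag pre pw 0 j = 1 → (B (0, j)).2.2 tm.k₀ = some (ι false)) ∧
      (tag pre pw 0 j = 2 → (B (0, j)).2.2 tm.k₀ = some (ι true)) ∧
      (tag pre pw 0 j = 3 → (B (0, j)).2.2 tm.k₀ = none → (B (0, j + 1)).2.2 tm.k₀ = none) ∧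
      (tag pre pw 0 j = 4 → (B (0, j)).2.2 tm.k₀ = none) := by
    intro j hj
    have h := (hpos 0 (Nat.zero_le _) j hj).2.1
    simp only [initC, h2c, h2c1, if_true, idx_centre, idx_next] at h
    refine h.resolve_left ?_
    unfold tag
    split_ifs <;> first | omega | simp
  obtain ⟨w', hw1, hw2⟩ := exists_list_of_prefix
    (fun i => if pre.length + i < J then (B (0, pre.length + i)).2.2 tm.k₀ else none) pw
    (by
      intro i hi h
      have h1 : pre.length + i < J := by omega
      have h2 : pre.length + (i + 1) < J := by omega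
      simp only [h1, h2, if_true] at h ⊢
      refine (hinit _ h1).2.2.2.2.2.1 ?_ h
      unfold tag
      split_ifs <;> omega)
    (by
      intro i hi
      split_ifs with h
      · refine (hinit _ h).2.2.2.2.2.2 ?_
        unfold tag
        split_ifs <;> omega
      · rfl)
  refine ⟨w'.map ι.symm, by simpa using hw1, ?_⟩
  set cfg0 := initList tm ((pre ++ w'.map ι.symm).map ι) with hcfg0
  have hrow0 : ∀ j < J, B (0, j) = colOf cfg0 j := by
    intro j hj
    obtain ⟨a1, a2, a3, a4, a5, -, -⟩ := hinit j hj
    refine Prod.ext a1 (Prod.ext a2 ?_)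
    funext k
    by_cases hk : k = tm.k₀
    · subst hk
      simp only [colOf, hcfg0, initList_stk_self]
      by_cases hjp : j < pre.length
      · rw [List.map_append, List.getElem?_append_left (by simpa using hjp), List.getElem?_map,
          List.getElem?_eq_getElem hjp]
        cases hb : pre[j] with
        | false => exact a4 (by simp [tag, hjp, hb])
        | true => exact a5 (by simp [tag, hjp, hb])
      · rw [List.map_append, List.getElem?_append_right (by simpa using hjp), List.map_map]
        simp only [Equiv.self_comp_symm, List.map_id, List.length_map, hw2]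
        have e : pre.length + (j - pre.length) = j := by omega
        rw [e, if_pos hj]
    · simp only [colOf, hcfg0, initList_stk_ne tm _ hk]
      exact a3 k hk
  have hcone : ∀ t ≤ T, ∀ j, j + t * c < J → B (t, j) = colOf ((run tm.m)^[t] cfg0) j := by
    intro t
    induction t with
    | zero => exact fun _ j hj => hrow0 j (by omega)
    | succ t ih =>
      intro ht j hj
      have hj' : j < J := by omega
      have h := (hpos t (by omega) j hj').1
      have e : ¬ (3 * c + 1 ≤ 3 * c) := by omega
      simp only [e, if_false] at h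
      rw [h, Function.iterate_succ_apply', colOf_run tm.m hc hc0]
      refine delta_congr tm.m (fun i hi => ?_) _
      simp only [hi, if_true]
      refine ih (by omega) _ ?_
      rw [Nat.add_mul] at hj
      unfold idx
      split_ifs <;> omega
  have hfin := (hpos T le_rfl 0 hJ0).2.2 (by simp [finFlag])
  simp only [h2c, if_true, idx_centre] at hfin
  rw [hcone T le_rfl 0 (by rw [Nat.add_mul] at hJ2; omega)] at hfin
  exact hfin

theorem tableau_complete (ι : Bool ≃ tm.Γ tm.k₀) (o : tm.Γ tm.k₁) {c : ℕ}
    (hc : ∀ l, depth (tm.m l) ≤ c) (hc0 : 0 < c) (pre : List Bool) {pw T : ℕ} (J : ℕ)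
    (w : List Bool) (hw : w.length ≤ pw)
    (hacc : (((run tm.m)^[T] (initList tm ((pre ++ w).map ι))).stk tm.k₁)[0]? = some o) (π : ℕ) :
    allowedCol tm ι o c (min (π % J) (2 * c)) (tag pre pw (π / J) (π % J))
      (finFlag T (π / J) (π % J)) fun i =>
        colOf ((run tm.m)^[(tvar J c π i).1] (initList tm ((pre ++ w).map ι))) (tvar J c π i).2 := by
  have h2c : 2 * c ≤ 3 * c := by omega
  have h2c1 : 2 * c + 1 ≤ 3 * c := by omega
  have e : ¬ (3 * c + 1 ≤ 3 * c) := by omega
  generalize hcfg0 : initList tm ((pre ++ w).map ι) = cfg0 at *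
  refine ⟨?_, ?_, ?_⟩
  · simp only [tvar, e, if_false]
    rw [Function.iterate_succ_apply', colOf_run tm.m hc hc0]
    refine delta_congr tm.m (fun i hi => ?_) _
    simp only [hi, if_true]
  · by_cases ht : π / J = 0
    · right
      simp only [tvar, h2c, h2c1, if_true, idx_centre, idx_next, ht, Function.iterate_zero, id]
      subst hcfg0
      generalize π % J = j
      refine ⟨rfl, rfl, fun k hk => ?_, fun h => ?_, fun h => ?_, fun _ h => ?_, fun h => ?_⟩
      · simp [colOf, initList_stk_ne tm _ hk]
      · have hj : j < pre.length := by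
          unfold tag at h
          split_ifs at h <;> omega
        have hb : pre[j] = false := by
          by_contra hb
          simp [tag, hj, hb] at h
        simp [colOf, initList_stk_self, List.getElem?_append_left, hj, hb]
      · have hj : j < pre.length := by
          unfold tag at h
          split_ifs at h <;> omega
        have hb : pre[j] = true := by
          by_contra hb
          simp [tag, hj, hb] at h
        simp [colOf, initList_stk_self, List.getElem?_append_left, hj, hb]
      · simp only [colOf, initList_stk_self, List.getElem?_eq_none_iff] at h ⊢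
        omega
      · have hj : pre.length + pw ≤ j := by
          unfold tag at h
          split_ifs at h <;> omega
        simp only [colOf, initList_stk_self, List.getElem?_eq_none_iff, List.length_map,
          List.length_append]
        omega
    · left
      simp [tag, ht]
  · intro h
    have : π / J = T ∧ π % J = 0 := by
      unfold finFlag at h
      split_ifs at h with h'
      exact h'
    simp only [tvar, h2c, if_true, idx_centre, this.1, this.2]
    exact hacc

end Pool.Agent.P.MP_ba7db8_lc
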