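import Mathlib
import Pool.Agent.P.MP_ba7db8_lc.Vander

/-!
From cliques of a graph to colourings of a Cayley graph of a power of `G`.
-/

namespace Pool.Agent.P.MP_ba7db8_lc

open Finset

set_option maxHeartbeats 400000

variable {G : Type*} [Group G]

/-- Differences of distinct non-adjacent vertices. -/
def nonAdj (z : G) (Γ : SimpleGraph ℕ) (l m : ℕ) (h : Fin (vlen l + m) → G) : Prop :=
  (∃ i : Fin (vlen l + m), vlen l ≤ i ∧ h i ≠ 1) ∧
    ∃ s t, Γ.Adj s t ∧ ∀ i : Fin (vlen l + m), (i : ℕ) < vlen l →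
      h i = (z ^ vec l s i)⁻¹ * z ^ vec l t i

/-- The connection set. -/
def conn (z : G) (Γ : SimpleGraph ℕ) (l m : ℕ) : Set (Fin (vlen l + m) → G) :=
  {h | h ≠ 1 ∧ ¬ nonAdj z Γ l m h}

theorem nonAdj_inv {z : G} {Γ : SimpleGraph ℕ} {l m : ℕ} {h : Fin (vlen l + m) → G}
    (hh : nonAdj z Γ l m h) : nonAdj z Γ l m h⁻¹ := by
  obtain ⟨⟨i, hi, hi'⟩, s, t, hst, h2⟩ := hh
  refine ⟨⟨i, hi, by simpa using hi'⟩, t, s, hst.symm, fun j hj => ?_⟩
  simp [h2 j hj]

theorem one_not_mem_conn (z : G) (Γ : SimpleGraph ℕ) (l m : ℕ) : 1 ∉ conn z Γ l m :=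
  fun h => h.1 rfl

theorem conn_inv (z : G) (Γ : SimpleGraph ℕ) (l m : ℕ) : (conn z Γ l m)⁻¹ = conn z Γ l m := by
  ext h
  simp only [conn, Set.mem_inv, Set.mem_ofPred_eq, ne_eq, inv_eq_one]
  refine and_congr_right fun _ => not_congr ⟨fun h1 => ?_, nonAdj_inv⟩
  simpa using nonAdj_inv h1

theorem adj_conn {z : G} {Γ : SimpleGraph ℕ} {l m : ℕ} {u v : Fin (vlen l + m) → G} :
    (SimpleGraph.mulCayley (conn z Γ l m)).Adj u v ↔ u ≠ v ∧ ¬ nonAdj z Γ l m (u⁻¹ * v) := by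
  rw [SimpleGraph.mulCayley_adj]
  refine and_congr_right fun hne => ⟨?_, fun h => Or.inl ⟨?_, h⟩⟩
  · rintro (h | h)
    · exact h.2
    · intro h'
      apply h.2
      simpa using nonAdj_inv h'
  · rwa [ne_eq, inv_mul_eq_one]

theorem zrel {z : G} {p a b a' b' c d : ℕ} (hp : orderOf z = p)
    (h : ((z ^ a)⁻¹ * z ^ b)⁻¹ * ((z ^ a')⁻¹ * z ^ b') = (z ^ c)⁻¹ * z ^ d) :
    ((b' : ZMod p) - a') - ((b : ZMod p) - a) = (d : ZMod p) - c := by
  have h1 : z ^ (((b' : ℤ) - a') - ((b : ℤ) - a)) = z ^ ((d : ℤ) - c) := by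
    have e1 : z ^ (((b' : ℤ) - a') - ((b : ℤ) - a)) =
        ((z ^ a)⁻¹ * z ^ b)⁻¹ * ((z ^ a')⁻¹ * z ^ b') := by
      simp only [← zpow_natCast, ← zpow_neg, ← zpow_add]
      congr 1
      ring
    have e2 : z ^ ((d : ℤ) - c) = (z ^ c)⁻¹ * z ^ d := by
      simp only [← zpow_natCast, ← zpow_neg, ← zpow_add]
      congr 1
      ring
    rw [e1, e2, h]
  rw [zpow_eq_zpow_iff_modEq, hp, ← ZMod.intCast_eq_intCast_iff] at h1
  simpa using h1

theorem colorable_of_clique [Fintype G] (z : G) (Γ : SimpleGraph ℕ) (l m : ℕ) {K : Finset ℕ}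
    (hK : Γ.IsNClique (Fintype.card G ^ m) K) :
    (SimpleGraph.mulCayley (conn z Γ l m)).Colorable (Fintype.card G ^ vlen l) := by
  classical
  have hcard : Fintype.card (Fin m → G) = Fintype.card K := by
    simp [hK.card_eq]
  let φ : (Fin m → G) ≃ K := Fintype.equivOfCardEq hcard
  let κ : (Fin (vlen l + m) → G) → Fin m → G := fun u j => u (Fin.natAdd _ j)
  let col : (Fin (vlen l + m) → G) → Fin (vlen l) → G := fun u i =>
    u (Fin.castAdd m i) * (z ^ vec l (φ (κ u)) i)⁻¹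
  have hval : ∀ {u v}, (SimpleGraph.mulCayley (conn z Γ l m)).Adj u v → col u ≠ col v := by
    intro u v huv hc
    obtain ⟨hne, hna⟩ := adj_conn.1 huv
    have hκ : κ u ≠ κ v := by
      intro hk
      apply hne
      funext i
      refine Fin.addCases (fun i => ?_) (fun j => congrFun hk j) i
      have := congrFun hc i
      simp only [col, hk] at this
      exact mul_right_cancel this
    apply hna
    obtain ⟨j, hj⟩ := Function.ne_iff.1 hκ
    refine ⟨⟨Fin.natAdd _ j, by simp, ?_⟩, φ (κ u), φ (κ v), ?_, fun i hi => ?_⟩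
    · simpa [inv_mul_eq_one] using hj
    · exact hK.isClique (φ (κ u)).2 (φ (κ v)).2 fun h => hκ (φ.injective (Subtype.ext h))
    · have := congrFun hc ⟨i, hi⟩
      have e : Fin.castAdd m (⟨i, hi⟩ : Fin (vlen l)) = i := Fin.ext rfl
      simp only [col, e] at this
      simp only [Pi.mul_apply, Pi.inv_apply]
      have h2 : v i = u i * (z ^ vec l (φ (κ u)) i)⁻¹ * z ^ vec l (φ (κ v)) i := by
        rw [this]
        simp
      rw [h2]
      group
  have := (SimpleGraph.Coloring.mk col hval).colorable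
  simpa using this

theorem clique_of_colorable [Fintype G] {z : G} {p : ℕ} [Fact p.Prime] (hp : orderOf z = p)
    (Γ : SimpleGraph ℕ) (l m : ℕ) (hΓ : ∀ s t, Γ.Adj s t → s < 2 ^ l)
    (hm : 5 ≤ Fintype.card G ^ m)
    (h : (SimpleGraph.mulCayley (conn z Γ l m)).Colorable (Fintype.card G ^ vlen l)) :
    ∃ K, Γ.IsNClique (Fintype.card G ^ m) K := by
  classical
  obtain ⟨C⟩ := h
  have hpos : 0 < Fintype.card G ^ vlen l := pow_pos Fintype.card_pos _
  have : Nonempty (Fin (Fintype.card G ^ vlen l)) := ⟨⟨0, hpos⟩⟩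
  obtain ⟨c, hc⟩ := Fintype.exists_le_card_fiber_of_mul_le_card (f := C)
    (n := Fintype.card G ^ m) (by simp [pow_add])
  set S := Finset.univ.filter fun x => C x = c with hS
  have hna : ∀ u ∈ S, ∀ v ∈ S, u ≠ v → nonAdj z Γ l m (u⁻¹ * v) := by
    intro u hu v hv hne
    by_contra hcon
    have := C.valid (adj_conn.2 ⟨hne, hcon⟩)
    rw [(mem_filter.1 hu).2, (mem_filter.1 hv).2] at this
    exact this rfl
  obtain ⟨u0, hu0⟩ : S.Nonempty := card_pos.1 (by omega)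
  have hI : (S.erase u0).card + 1 = S.card := card_erase_add_one hu0
  have hex : ∀ u ∈ S.erase u0, ∃ s t, Γ.Adj s t ∧ ∀ i : Fin (vlen l + m), (i : ℕ) < vlen l →
      (u0⁻¹ * u) i = (z ^ vec l s i)⁻¹ * z ^ vec l t i := fun u hu =>
    (hna u0 hu0 u (mem_of_mem_erase hu) (ne_of_mem_erase hu).symm).2
  choose! s t hst hst' using hex
  obtain ⟨K, hK⟩ := free_clique (F := ZMod p) Γ (S.erase u0) (by omega) s t hst (by
    intro u hu u' hu' hne
    obtain ⟨r, q, hrq, h3⟩ := (hna u (mem_of_mem_erase hu) u' (mem_of_mem_erase hu') hne).2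
    refine ⟨r, q, hrq, vec_indep p (hΓ _ _ (hst u hu)) (hΓ _ _ (hst u hu).symm)
      (hΓ _ _ (hst u' hu')) (hΓ _ _ (hst u' hu').symm) (hΓ _ _ hrq) (hΓ _ _ hrq.symm) ?_⟩
    intro i hi
    have e1 := hst' u hu ⟨i, by omega⟩ hi
    have e2 := hst' u' hu' ⟨i, by omega⟩ hi
    have e3 := h3 ⟨i, by omega⟩ hi
    apply zrel hp
    simp only at e1 e2 e3
    rw [← e1, ← e2, ← e3]
    simp [mul_assoc])
  obtain ⟨K', hK', hK''⟩ := Finset.exists_subset_card_eq (s := K) (n := Fintype.card G ^ m)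
    (by rw [hK.card_eq]; omega)
  exact ⟨K', hK.isClique.subset (by exact_mod_cast hK'), hK''⟩

end Pool.Agent.P.MP_ba7db8_lc
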