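import Mathlib

namespace Pool.Agent.P.MP_ba7db8_lc

/-- Self-delimiting pairing of bit strings. -/
def pair (x w : List Bool) : List Bool := x.flatMap (fun b => [true, b]) ++ false :: w

open Classical in
/-- The adjacency matrix of a graph on `Fin N`, row by row. -/
noncomputable def adjBits {N : ℕ} (X : SimpleGraph (Fin N)) : List Bool :=
  (List.finRange N).flatMap fun u => (List.finRange N).map fun v => decide (X.Adj u v)

/-- The class NP, by polynomial-time verifiers. -/
def InNP (L : Set (List Bool)) : Prop :=
  ∃ (V : List Bool → Bool) (p : Polynomial ℕ),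
    Nonempty (Turing.TM2ComputableInPolyTime id Computability.encodeBool V) ∧
      ∀ x, x ∈ L ↔ ∃ w : List Bool, w.length ≤ p.eval x.length ∧ V (pair x w) = true

end Pool.Agent.P.MP_ba7db8_lc
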