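import Mathlib
import Pool.Agent.P.MP_ba7db8_lc.PTP
import Pool.Agent.P.MP_ba7db8_lc.Defs
import Pool.Agent.P.MP_ba7db8_lc.Tableau2

/-!
The reduction as a function on bit strings, and its polynomial running time.
-/

namespace Pool.Agent.P.MP_ba7db8_lc

open Pool.Agent.Lib.Helper47

set_option maxHeartbeats 400000
set_option linter.dupNamespace false

/-- The constants of the reduction. -/
structure Par where
  /-- locality radius -/
  c : ℕ
  /-- number of column codes -/
  d : ℕ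
  /-- order of the group -/
  g : ℕ
  /-- a prime -/
  p : ℕ
  /-- witness length bound -/
  P : Polynomial ℕ
  /-- time bound -/
  Tm : Polynomial ℕ
  /-- local constraint table -/
  Tab : ℕ → ℕ → ℕ → (ℕ → ℕ) → Prop
  /-- group table -/
  R : ℕ → ℕ → ℕ → ℕ → Prop

namespace Par

variable (q : Par) (x : List Bool)

/-- witness length -/
def pw : ℕ := q.P.eval x.length
/-- time -/
def T : ℕ := q.Tm.eval ((pair x []).length + q.pw x)
/-- width -/
def J : ℕ := (pair x []).length + q.pw x + (q.T x + 1) * q.c + 1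
/-- number of extra coordinates -/
def m : ℕ := ((q.T x + 1) * q.J x + 5).size
/-- clique size -/
def k : ℕ := q.g ^ q.m x
/-- arity -/
def M : ℕ := 3 * q.c + 2
/-- number of vertices of the consistency graph -/
def nv : ℕ := q.k x * q.d ^ q.M
/-- number of bits of a vertex -/
def l : ℕ := (q.nv x).size
/-- exponent of the group -/
def n : ℕ := vlen (q.l x) + q.m x
/-- number of vertices -/
def N : ℕ := q.g ^ q.n x
/-- number of colours -/
def kout : ℕ := q.g ^ vlen (q.l x)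

/-- local constraints -/
def allowed (π : ℕ) (α : ℕ → ℕ) : Prop :=
  q.Tab (min (π % q.J x) (2 * q.c)) (tag (pair x []) (q.pw x) (π / q.J x) (π % q.J x))
    (finFlag (q.T x) (π / q.J x) (π % q.J x)) α

/-- the consistency graph -/
def Gam : SimpleGraph ℕ := cspGraph (q.k x) q.d q.M (tvar (q.J x) q.c) (q.allowed x)

/-- adjacency in the output graph -/
def adjN (u v : ℕ) : Prop :=
  u ≠ v ∧ ¬ ((∃ i < q.n x, vlen (q.l x) ≤ i ∧ dig q.g u i ≠ dig q.g v i) ∧
    ∃ s < q.nv x, ∃ t < q.nv x, (q.Gam x).Adj s t ∧ ∀ i < vlen (q.l x),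
      q.R (dig q.g u i) (dig q.g v i) (vec (q.l x) s i % q.p) (vec (q.l x) t i % q.p))

open Classical in
/-- the reduction -/
noncomputable def out : List Bool :=
  pair (q.kout x).bits ((List.range (q.N x)).flatMap fun u =>
    (List.range (q.N x)).map fun v => decide (q.adjN x u v))

section PT

variable {α : Type} [Enc α] {X : α → List Bool}

theorem pt_pair {Y : α → List Bool} (hX : PT X) (hY : PT Y) : PT fun a => pair (X a) (Y a) := by
  unfold pair
  fun_prop

theorem pt_pw (hX : PT X) : PT fun a => q.pw (X a) := pt_eval _ (PT.length hX)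
theorem ps_pw (hX : PT X) : PS fun a => q.pw (X a) := (ps_length hX).eval _
theorem pt_T (hX : PT X) : PT fun a => q.T (X a) :=
  pt_eval _ (PT.add (PT.length (pt_pair hX (PT.const []))) (q.pt_pw hX))
theorem ps_T (hX : PT X) : PS fun a => q.T (X a) :=
  ((ps_length (pt_pair hX (PT.const []))).add (q.ps_pw hX)).eval _
theorem pt_J (hX : PT X) : PT fun a => q.J (X a) :=
  PT.add (PT.add (PT.add (PT.length (pt_pair hX (PT.const []))) (q.pt_pw hX))
    (PT.mul (PT.add (q.pt_T hX) (PT.const 1)) (PT.const _))) (PT.const 1)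
theorem ps_J (hX : PT X) : PS fun a => q.J (X a) :=
  (((ps_length (pt_pair hX (PT.const []))).add (q.ps_pw hX)).add
    (((q.ps_T hX).add (PB.const 1)).mul (PB.const _))).add (PB.const 1)
theorem pt_m (hX : PT X) : PT fun a => q.m (X a) :=
  pt_size (PT.add (PT.mul (PT.add (q.pt_T hX) (PT.const 1)) (q.pt_J hX)) (PT.const 5))
theorem ps_m (hX : PT X) : PS fun a => q.m (X a) :=
  ps_size ((((q.ps_T hX).add (PB.const 1)).mul (q.ps_J hX)).add (PB.const 5))
theorem pt_k (hX : PT X) : PT fun a => q.k (X a) :=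
  PT.pow (PT.const _) (q.pt_m hX) (q.ps_m hX)
theorem ps_k (hX : PT X) : PS fun a => q.k (X a) :=
  ps_pow_size _ ((((q.ps_T hX).add (PB.const 1)).mul (q.ps_J hX)).add (PB.const 5))
theorem pt_nv (hX : PT X) : PT fun a => q.nv (X a) := PT.mul (q.pt_k hX) (PT.const _)
theorem ps_nv (hX : PT X) : PS fun a => q.nv (X a) := (q.ps_k hX).mul (PB.const _)
theorem pt_l (hX : PT X) : PT fun a => q.l (X a) := pt_size (q.pt_nv hX)
theorem ps_l (hX : PT X) : PS fun a => q.l (X a) := ps_size (q.ps_nv hX)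
theorem pt_vlen (hX : PT X) : PT fun a => vlen (q.l (X a)) :=
  PT.mul (PT.const 6) (PT.add (PT.mul (PT.const 5) (q.pt_l hX)) (PT.const 1))
theorem ps_vlen (hX : PT X) : PS fun a => vlen (q.l (X a)) :=
  (PB.const 6).mul (((PB.const 5).mul (q.ps_l hX)).add (PB.const 1))
theorem pt_n (hX : PT X) : PT fun a => q.n (X a) := PT.add (q.pt_vlen hX) (q.pt_m hX)
theorem ps_n (hX : PT X) : PS fun a => q.n (X a) := (q.ps_vlen hX).add (q.ps_m hX)
theorem pt_kout (hX : PT X) : PT fun a => q.kout (X a) :=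
  PT.pow (PT.const _) (q.pt_vlen hX) (q.ps_vlen hX)
theorem ps_kout (hX : PT X) : PS fun a => q.kout (X a) :=
  (((ps_pow_size q.g (q.ps_nv hX)).pow 30).mul (PB.const (q.g ^ 6))).mono fun a => by
    unfold kout vlen l
    rw [← pow_mul, ← pow_add]
    apply le_of_eq
    congr 1
    ring
theorem pt_N (hX : PT X) : PT fun a => q.N (X a) :=
  PT.pow (PT.const _) (q.pt_n hX) (q.ps_n hX)
theorem ps_N (hX : PT X) : PS fun a => q.N (X a) :=
  ((q.ps_kout hX).mul (q.ps_k hX)).mono fun a => by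
    unfold N n kout k
    rw [pow_add]

theorem pt_idx (c : ℕ) {j i : α → ℕ} (hj : PT j) (hi : PT i) : PT fun a => idx c (j a) (i a) :=
  PTP.ite (PTP.lt hi (PT.const c)) hi (by fun_prop)

theorem pt_tvar (c : ℕ) {J π i : α → ℕ} (hJ : PT J) (hπ : PT π) (hi : PT i) :
    PT fun a => tvar (J a) c (π a) (i a) :=
  PTP.ite (PTP.le hi (PT.const _)) (PT.prodMk (by fun_prop) (pt_idx c (by fun_prop) hi))
    (by fun_prop)

theorem pt_tag {pre : α → List Bool} {pw t j : α → ℕ} (hpre : PT pre) (hpw : PT pw) (ht : PT t)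
    (hj : PT j) : PT fun a => tag (pre a) (pw a) (t a) (j a) :=
  PTP.ite (PTP.eq ht (PT.const 0)).not (PT.const 0)
    (PTP.ite (PTP.lt hj (PT.length hpre))
      (PTP.ite (PTP.eq (PT.getD hpre hj (PT.const false)) (PT.const true)) (PT.const 2)
        (PT.const 1))
      (PTP.ite (PTP.lt hj (PT.add (PT.length hpre) hpw)) (PT.const 3) (PT.const 4)))

theorem pt_finFlag {T t j : α → ℕ} (hT : PT T) (ht : PT t) (hj : PT j) :
    PT fun a => finFlag (T a) (t a) (j a) :=
  PTP.ite ((PTP.eq ht hT).and (PTP.eq hj (PT.const 0))) (PT.const 1) (PT.const 0)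

theorem ptp_agree (hX : PT X) {s t : α → ℕ} (hs : PT s) (ht : PT t) :
    PTP fun a => agree q.d q.M (tvar (q.J (X a)) q.c) (s a) (t a) := by
  have h : PTP fun a => ∀ i < q.M, ∀ i' < q.M,
      tvar (q.J (X a)) q.c (s a / q.d ^ q.M) i = tvar (q.J (X a)) q.c (t a / q.d ^ q.M) i' →
      dig q.d (s a % q.d ^ q.M) (min i q.M) = dig q.d (t a % q.d ^ q.M) (min i' q.M) := by
    refine PTP.ball (PT.const _) (PB.const _) (PTP.ball (PT.const _) (PB.const _) ?_)
    refine PTP.imp (PTP.eq (pt_tvar _ (q.pt_J ?_) ?_ ?_) (pt_tvar _ (q.pt_J ?_) ?_ ?_))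
      (PTP.eq (pt_dig _ ?_ ?_ (PT.const _) (PB.const _)) (pt_dig _ ?_ ?_ (PT.const _) (PB.const _)))
    all_goals fun_prop
  refine h.of_iff fun a => ?_
  unfold agree
  refine forall₂_congr fun i hi => forall₂_congr fun i' hi' => ?_
  rw [min_eq_left hi.le, min_eq_left hi'.le]

theorem ptp_goodV (hd : 0 < q.d) (hX : PT X) {s : α → ℕ} (hs : PT s) :
    PTP fun a => goodV (q.k (X a)) q.d q.M (tvar (q.J (X a)) q.c) (q.allowed (X a)) (s a) := by
  refine PTP.and (PTP.lt (by fun_prop) (q.pt_k hX)) (PTP.and ?_ (q.ptp_agree hX hs hs))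
  have hJ := q.pt_J hX
  refine PTP.table (fun a b c r => q.Tab a b c (dig q.d r)) (2 * q.c + 5 + q.d ^ q.M)
    (by fun_prop) (pt_tag (pt_pair hX (PT.const [])) (q.pt_pw hX) (by fun_prop) (by fun_prop))
    (pt_finFlag (q.pt_T hX) (by fun_prop) (by fun_prop)) (f₄ := fun a => s a % q.d ^ q.M)
    (by fun_prop) fun a => ⟨by omega, ?_, ?_, ?_⟩
  · unfold tag
    split_ifs <;> omega
  · unfold finFlag
    split_ifs <;> omega
  · have := Nat.mod_lt (s a) (pow_pos hd q.M)
    omega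

theorem ptp_Gam (hd : 0 < q.d) (hX : PT X) {s t : α → ℕ} (hs : PT s) (ht : PT t) :
    PTP fun a => (q.Gam (X a)).Adj (s a) (t a) :=
  PTP.and (PTP.eq (by fun_prop) (by fun_prop)).not (PTP.and (q.ptp_goodV hd hX hs)
    (PTP.and (q.ptp_goodV hd hX ht) (q.ptp_agree hX hs ht)))

theorem ptp_adjN (hd : 0 < q.d) (hg : 0 < q.g) (hp : 0 < q.p) (hX : PT X) {u v : α → ℕ}
    (hu : PT u) (hv : PT v) : PTP fun a => q.adjN (X a) (u a) (v a) := by
  refine PTP.and (PTP.eq hu hv).not (PTP.not (PTP.and ?_ ?_))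
  · have h : PTP fun a => ∃ i < q.n (X a), vlen (q.l (X a)) ≤ i ∧
        dig q.g (u a) (min i (q.n (X a))) ≠ dig q.g (v a) (min i (q.n (X a))) := by
      refine PTP.bex (q.pt_n hX) (q.ps_n hX) (PTP.and (PTP.le (q.pt_vlen ?_) ?_)
        (PTP.eq (pt_dig _ ?_ ?_ (q.pt_n ?_) (q.ps_n ?_))
          (pt_dig _ ?_ ?_ (q.pt_n ?_) (q.ps_n ?_))).not)
      all_goals fun_prop
    refine h.of_iff fun a => ?_
    refine exists_congr fun i => and_congr_right fun hi => ?_
    rw [min_eq_left hi.le]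
  · refine PTP.bex (q.pt_nv hX) (q.ps_nv hX) (PTP.bex (q.pt_nv (by fun_prop))
      (q.ps_nv (by fun_prop)) (PTP.and (q.ptp_Gam hd (by fun_prop) (by fun_prop) (by fun_prop)) ?_))
    have hX' : PT fun y : (α × ℕ) × ℕ => X y.1.1 := by fun_prop
    have hX'' : PT fun y : ((α × ℕ) × ℕ) × ℕ => X y.1.1.1 := by fun_prop
    have h : PTP fun y : (α × ℕ) × ℕ => ∀ i < vlen (q.l (X y.1.1)),
        q.R (dig q.g (u y.1.1) (min i (vlen (q.l (X y.1.1)))))
          (dig q.g (v y.1.1) (min i (vlen (q.l (X y.1.1)))))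
          (vec (q.l (X y.1.1)) y.1.2 i % q.p) (vec (q.l (X y.1.1)) y.2 i % q.p) := by
      refine PTP.ball (q.pt_vlen hX') (q.ps_vlen hX') (PTP.table q.R (q.g + q.p)
        (pt_dig _ ?_ ?_ (q.pt_vlen hX'') (q.ps_vlen hX''))
        (pt_dig _ ?_ ?_ (q.pt_vlen hX'') (q.ps_vlen hX''))
        (PT.mod (pt_vec (q.pt_l hX'') (q.ps_l hX'') ?_ ?_) (PT.const _))
        (PT.mod (pt_vec (q.pt_l hX'') (q.ps_l hX'') ?_ ?_) (PT.const _)) ?_)
      any_goals fun_prop
      intro y
      refine ⟨?_, ?_, ?_, ?_⟩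
      · exact Nat.lt_add_right _ (Nat.mod_lt _ hg)
      · exact Nat.lt_add_right _ (Nat.mod_lt _ hg)
      · exact Nat.lt_add_left _ (Nat.mod_lt _ hp)
      · exact Nat.lt_add_left _ (Nat.mod_lt _ hp)
    refine h.of_iff fun y => ?_
    refine forall₂_congr fun i hi => ?_
    rw [min_eq_left hi.le]

theorem pt_out (hd : 0 < q.d) (hg : 0 < q.g) (hp : 0 < q.p) : PT q.out := by
  classical
  unfold out
  refine pt_pair (PT.bits (q.pt_kout PT.id)) ?_
  refine PT.flatMap (g := fun x u => (List.range (q.N x)).map fun v => decide (q.adjN x u v)) ?_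
    (PT.range (q.pt_N PT.id) (q.ps_N PT.id))
  refine PT.map (g := fun (y : List Bool × ℕ) v => decide (q.adjN y.1 y.2 v)) ?_
    (PT.range (q.pt_N (by fun_prop)) (q.ps_N (by fun_prop)))
  exact q.ptp_adjN hd hg hp (by fun_prop) (by fun_prop) (by fun_prop)

end PT

end Par

end Pool.Agent.P.MP_ba7db8_lc
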