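import Mathlib
import Pool.Agent.P.MP_ba7db8_lc.Reduction
import Pool.Agent.P.MP_ba7db8_lc.Cayley

/-!
Correctness of the reduction.
-/

namespace Pool.Agent.P.MP_ba7db8_lc

open Pool.Agent.Lib.Helper47 Turing Turing.TM2

set_option maxHeartbeats 800000

theorem pair_append (x w : List Bool) : pair x [] ++ w = pair x w := by
  simp [pair]

theorem run_output {V : List Bool → Bool}
    (h : TM2ComputableInPolyTime id Computability.encodeBool V) (y : List Bool) {T : ℕ}
    (hT : h.time.eval y.length ≤ T) :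
    (((run h.tm.m)^[T] (initList h.tm (y.map h.inputAlphabet.symm))).stk h.tm.k₁)[0]? =
      some (h.outputAlphabet.symm (V y)) := by
  have e := h.outputsFun y
  have e1 := iterate_run_of_evals h.tm.m e.steps _ _ e.evals_in_steps
  have e2 : e.steps ≤ T := e.steps_le_m.trans hT
  obtain ⟨r, rfl⟩ := Nat.exists_eq_add_of_le' e2
  rw [Function.iterate_add_apply]
  have e3 : (run h.tm.m)^[e.steps] (initList h.tm (y.map h.inputAlphabet.symm)) =
      haltList h.tm [h.outputAlphabet.symm (V y)] := e1
  rw [e3, iterate_run_of_halt _ rfl, haltList_stk_self]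
  rfl

/-- The Cook-Levin part: cliques of the consistency graph correspond to accepted witnesses. -/
theorem exists_par {V : List Bool → Bool}
    (h : TM2ComputableInPolyTime id Computability.encodeBool V) (P : Polynomial ℕ) (g p : ℕ)
    (hg : 2 ≤ g) (R : ℕ → ℕ → ℕ → ℕ → Prop) :
    ∃ q : Par, q.g = g ∧ q.p = p ∧ q.R = R ∧ 0 < q.d ∧ ∀ x,
      ((∃ K, (q.Gam x).IsNClique (q.k x) K) ↔
        ∃ w : List Bool, w.length ≤ P.eval x.length ∧ V (pair x w) = true) := by
  classical
  have := h.tm.kFin
  have := h.tm.ΛFin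
  have := h.tm.σFin
  have := h.tm.Γk₀Fin
  have : Nonempty h.tm.σ := ⟨h.tm.initialState⟩
  let c := (Finset.univ.sup fun l => depth (h.tm.m l)) + 1
  have hc : ∀ l, depth (h.tm.m l) ≤ c := fun l =>
    (Finset.le_sup (f := fun l => depth (h.tm.m l)) (Finset.mem_univ l)).trans (Nat.le_succ _)
  have hc0 : 0 < c := Nat.succ_pos _
  let A : Set (Σ k, h.tm.Γ k) := (⋃ l, pushSet (h.tm.m l)) ∪
    Set.range fun a : h.tm.Γ h.tm.k₀ => (⟨h.tm.k₀, a⟩ : Σ k, h.tm.Γ k)
  have hA : A.Finite :=
    (Set.finite_iUnion fun l => pushSet_finite _).union (Set.finite_range _)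
  obtain ⟨d, dec, hd, hdec⟩ := exists_dec (Λ := h.tm.Λ) (σ := h.tm.σ) hA
  let q : Par := ⟨c, d, g, p, P, h.time, fun jj tg fn α => allowedCol h.tm h.inputAlphabet.symm
    (h.outputAlphabet.symm true) c jj tg fn (fun i => dec (α i)), R⟩
  refine ⟨q, rfl, rfl, rfl, hd, fun x => ?_⟩
  have hk : (q.T x + 1) * q.J x + 5 ≤ q.k x :=
    (Nat.lt_size_self _).le.trans (Nat.pow_le_pow_left hg _)
  have htime : ∀ w : List Bool, w.length ≤ q.pw x →
      h.time.eval (pair x [] ++ w).length ≤ q.T x := by
    intro w hw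
    refine eval_mono _ ?_
    rw [List.length_append]
    omega
  unfold Par.Gam
  rw [clique_iff_assignment hd (by omega)]
  · constructor
    · rintro ⟨B, -, hB⟩
      obtain ⟨w, hw, hacc⟩ := tableau_sound h.tm h.inputAlphabet.symm
        (h.outputAlphabet.symm true) hc hc0 (pair x []) (pw := q.pw x) (T := q.T x) (J := q.J x)
        (k := q.k x) (by unfold Par.J; omega) (by unfold Par.J; change _ < _ + _ * c + 1; omega)
        (by omega) (fun y => dec (B y)) hB
      rw [run_output h _ (htime w hw), pair_append] at hacc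
      exact ⟨w, hw, h.outputAlphabet.symm.injective (Option.some.inj hacc)⟩
    · rintro ⟨w, hw, hV⟩
      have hacc := run_output h _ (htime w hw)
      rw [show V (pair x [] ++ w) = true by rw [pair_append]; exact hV] at hacc
      have hmem : ∀ y : ℕ × ℕ, ∃ a < d, dec a = colOf ((run h.tm.m)^[y.1]
          (initList h.tm ((pair x [] ++ w).map h.inputAlphabet.symm))) y.2 := by
        intro y
        refine hdec _ fun k a ha => ?_
        refine run_mem (A := A) h.tm.m
          (fun l => (Set.subset_iUnion (fun l => pushSet (h.tm.m l)) l).trans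
            Set.subset_union_left) _ ?_ y.1 k a (List.mem_of_getElem? ha)
        intro k a ha
        by_cases hk : k = h.tm.k₀
        · subst hk
          exact Or.inr ⟨a, rfl⟩
        · rw [initList_stk_ne _ _ hk] at ha
          cases ha
      choose B hB1 hB2 using hmem
      refine ⟨B, hB1, fun π _ => ?_⟩
      have := tableau_complete h.tm h.inputAlphabet.symm (h.outputAlphabet.symm true) hc hc0
        (pair x []) (pw := q.pw x) (T := q.T x) (q.J x) w hw hacc π
      simp only [← hB2] at this
      exact this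
  · intro π α β hαβ hα
    exact allowedCol_congr h.tm (β := fun i => dec (α i)) (β' := fun i => dec (β i))
      (fun i hi => by rw [hαβ i hi]) hc0 hα

theorem main (G : Type*) [Group G] [Finite G] [Nontrivial G] (L : Set (List Bool))
    (hL : InNP L) :
    ∃ f : List Bool → List Bool, Nonempty (TM2ComputableInPolyTime id id f) ∧
      ∀ x, ∃ (N : ℕ) (X : SimpleGraph (Fin N)) (k : ℕ), f x = pair k.bits (adjBits X) ∧
        (∃ n ≥ 1, ∃ C : Set (Fin n → G), 1 ∉ C ∧ C⁻¹ = C ∧
          Nonempty (X ≃g SimpleGraph.mulCayley C)) ∧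
        (x ∈ L ↔ X.chromaticNumber ≤ k) := by
  classical
  obtain ⟨V, P, ⟨h⟩, hV⟩ := hL
  have := Fintype.ofFinite G
  have hg : 2 ≤ Fintype.card G := Fintype.one_lt_card
  obtain ⟨p, hp, hpd⟩ := Nat.exists_prime_and_dvd (n := Fintype.card G) (by omega)
  have := Fact.mk hp
  obtain ⟨z, hz⟩ := exists_prime_orderOf_dvd_card p hpd
  let e : Fin (Fintype.card G) ≃ G := (Fintype.equivFin G).symm
  let gel : ℕ → G := fun a => if h : a < Fintype.card G then e ⟨a, h⟩ else 1
  obtain ⟨q, hqg, hqp, hqR, hd, hq⟩ := exists_par h P (Fintype.card G) p hg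
    fun a b α β => (gel a)⁻¹ * gel b = (z ^ α)⁻¹ * z ^ β
  refine ⟨q.out, PT.computableInPolyTime id id q.out
    (q.pt_out hd (by omega) (hqp ▸ hp.pos)) fun _ => rfl, fun x => ?_⟩
  let φ : Fin (Fintype.card G ^ (vlen (q.l x) + q.m x)) ≃ (Fin (vlen (q.l x) + q.m x) → G) :=
    finFunctionFinEquiv.symm.trans (Equiv.arrowCongr (Equiv.refl _) e)
  have hφ : ∀ u i, φ u i = gel (dig q.g u i) := by
    intro u i
    have hlt : dig q.g u i < Fintype.card G := by
      rw [hqg]
      exact Nat.mod_lt _ (by omega)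
    simp only [gel, hlt, dif_pos]
    change e (finFunctionFinEquiv.symm u i) = _
    congr 1
    ext
    simp [dig, hqg]
  have hgel : ∀ a b, a < Fintype.card G → b < Fintype.card G → gel a = gel b → a = b := by
    intro a b ha hb hab
    simp only [gel, ha, hb, dif_pos] at hab
    simpa using hab
  have hN : q.N x = Fintype.card G ^ (vlen (q.l x) + q.m x) := by
    unfold Par.N Par.n
    rw [hqg]
  have hlt : ∀ s t, (q.Gam x).Adj s t → s < q.nv x := fun s t hst => cspGraph_lt hd hst
  let X := (SimpleGraph.mulCayley (conn z (q.Gam x) (q.l x) (q.m x))).comap φ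
  have hadj : ∀ u v, X.Adj u v ↔ q.adjN x u v := by
    intro u v
    change (SimpleGraph.mulCayley (conn z (q.Gam x) (q.l x) (q.m x))).Adj (φ u) (φ v) ↔ _
    rw [adj_conn]
    unfold Par.adjN nonAdj
    refine and_congr (by simp [Fin.val_ne_iff]) (not_congr (and_congr ?_ ?_))
    · have hdl : ∀ w i, dig q.g w i < Fintype.card G := fun w i => by
        rw [hqg]
        exact Nat.mod_lt _ (by omega)
      constructor
      · rintro ⟨i, hi, hne⟩
        refine ⟨i, i.2, hi, fun h => hne ?_⟩
        simp [hφ, h]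
      · rintro ⟨i, hi, hi', hne⟩
        refine ⟨⟨i, hi⟩, hi', fun h => hne (hgel _ _ (hdl _ _) (hdl _ _) ?_)⟩
        simpa [hφ, inv_mul_eq_one] using h
    · have hzp : ∀ a, z ^ (a % q.p) = z ^ a := fun a => by
        rw [hqp, ← hz, pow_mod_orderOf]
      constructor
      · rintro ⟨s, t, hst, h⟩
        refine ⟨s, hlt _ _ hst, t, hlt _ _ hst.symm, hst, fun i hi => ?_⟩
        have := h ⟨i, by omega⟩ hi
        rw [hqR]
        simpa [hφ, hzp] using this
      · rintro ⟨s, -, t, -, hst, h⟩
        refine ⟨s, t, hst, fun i hi => ?_⟩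
        have := h i hi
        rw [hqR] at this
        simpa [hφ, hzp] using this
  refine ⟨_, X, q.kout x, ?_, ⟨vlen (q.l x) + q.m x, by unfold vlen; omega, _,
    one_not_mem_conn z _ _ _, conn_inv z _ _ _, ⟨SimpleGraph.Iso.comap φ _⟩⟩, ?_⟩
  · unfold Par.out adjBits
    congr 1
    have hr : ∀ n, List.range n = (List.finRange n).map Fin.val := fun n => by
      apply List.ext_getElem <;> simp
    rw [hN, hr, List.flatMap_map]
    congr 1
    funext u
    rw [List.map_map]
    congr 1
    funext v
    simp only [Function.comp, hadj]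
  · have hk : q.k x = Fintype.card G ^ q.m x := by rw [Par.k, hqg]
    have hko : q.kout x = Fintype.card G ^ vlen (q.l x) := by rw [Par.kout, hqg]
    rw [hV, ← hq, SimpleGraph.chromaticNumber_congr (SimpleGraph.Iso.comap φ _),
      SimpleGraph.chromaticNumber_le_iff_colorable, hk, hko]
    constructor
    · rintro ⟨K, hK⟩
      exact colorable_of_clique z _ _ _ hK
    · refine clique_of_colorable hz _ _ _
        (fun s t hst => (hlt s t hst).trans (Nat.lt_size_self _)) ?_
      calc 5 ≤ (q.T x + 1) * q.J x + 5 := by omega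
        _ ≤ 2 ^ q.m x := (Nat.lt_size_self _).le
        _ ≤ _ := Nat.pow_le_pow_left hg _

end Pool.Agent.P.MP_ba7db8_lc
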